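import Mathlib
import Pool.Agent.Lib.MP_0b748d_nt.Cover
import Pool.Agent.Lib.MP_0b748d_nt.P.PrimeElt
import Pool.Agent.Lib.MP_0b748d_nt.Measure
import Pool.Agent.Lib.MP_0b748d_nt.P.MomentGen

section

section

set_option autoImplicit false

/-!
# Algebra in an abelian group without elements of order 2
-/

namespace Pool.Agent.Lib.MP_0b748d_nt.M3

variable {A : Type*} [AddCommGroup A]

/-- `x` is one of the two values `w1, w2` -/
def InW (w1 w2 x : A) : Prop := x = w1 ∨ x = w2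

theorem halve (h2 : ∀ a : A, a + a = 0 → a = 0) {x y : A} (h : x + x = y + y) : x = y := by
  have h1 : (x - y) + (x - y) = 0 := by
    have : (x - y) + (x - y) = (x + x) - (y + y) := by abel
    rw [this, h, sub_self]
  exact sub_eq_zero.mp (h2 _ h1)

/-- three elements of a two-element set: two are equal -/
theorem pigeon {w1 w2 a b c : A} (ha : InW w1 w2 a) (hb : InW w1 w2 b) (hc : InW w1 w2 c) :
    a = b ∨ a = c ∨ b = c := by
  rcases ha with rfl | rfl <;> rcases hb with rfl | rfl <;> rcases hc with rfl | rfl <;> simp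

/-- among two adjacent labels compatible with `t`, one is `t` -/
theorem two_of_three (h2 : ∀ a : A, a + a = 0 → a = 0) {w1 w2 t x y : A}
    (ht : InW w1 w2 (t + t)) (hx : InW w1 w2 (x + t)) (hy : InW w1 w2 (y + t))
    (hxy : InW w1 w2 (x + y)) : x = t ∨ y = t := by
  rcases pigeon ht hx hy with h | h | h
  · exact Or.inl (add_right_cancel h).symm
  · exact Or.inr (add_right_cancel h).symm
  · have e : x = y := add_right_cancel h
    subst e
    rcases pigeon ht hx hxy with h | h | h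
    · exact Or.inl (add_right_cancel h).symm
    · exact Or.inl (halve h2 h).symm
    · exact Or.inl (add_left_cancel h).symm

/-- `t` is the majority label of an edge with labels `x`, `y` -/
def Maj (w1 w2 t x y : A) : Prop :=
  InW w1 w2 (t + t) ∧ InW w1 w2 (x + t) ∧ InW w1 w2 (y + t) ∧ (x = t ∨ y = t)

/-- going through a triangle -/
theorem Maj.third (h2 : ∀ a : A, a + a = 0 → a = 0) {w1 w2 t x y z : A}
    (h : Maj w1 w2 t x y) (hxz : InW w1 w2 (x + z)) (hzy : InW w1 w2 (z + y)) :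
    InW w1 w2 (z + t) ∧ Maj w1 w2 t x z ∧ Maj w1 w2 t z y := by
  obtain ⟨h1, hx, hy, h3⟩ := h
  have hz : InW w1 w2 (z + t) := by
    rcases h3 with rfl | rfl
    · rwa [add_comm]
    · exact hzy
  exact ⟨hz, ⟨h1, hx, hz, two_of_three h2 h1 hx hz hxz⟩,
    ⟨h1, hz, hy, two_of_three h2 h1 hz hy hzy⟩⟩

/-- a triangle has a majority label -/
theorem exists_maj {w1 w2 x y z : A}
    (hxy : InW w1 w2 (x + y)) (hxz : InW w1 w2 (x + z)) (hzy : InW w1 w2 (z + y)) :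
    ∃ t, Maj w1 w2 t x y := by
  rcases pigeon hxy hxz hzy with h | h | h
  · have e : y = z := add_left_cancel h
    subst e
    exact ⟨y, hzy, hxz, hzy, Or.inr rfl⟩
  · have e : x = z := add_right_cancel h
    subst e
    exact ⟨x, hxz, hxz, by rwa [add_comm], Or.inl rfl⟩
  · have e : x = y := by
      rw [add_comm z y] at h
      exact add_right_cancel h
    subst e
    exact ⟨x, hxy, hxy, hxy, Or.inl rfl⟩

theorem step_rel (h2 : ∀ a : A, a + a = 0 → a = 0) {w1 w2 r x y : A} (hr : r ≠ 0)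
    (hxy : InW w1 w2 (x + y + r)) :
    (x + x = w1 → y + y = w1 → r = w2 - w1) ∧ (x + x = w2 → y + y = w2 → r = w1 - w2) := by
  refine ⟨?_, ?_⟩
  · intro h1 h3
    have e : x = y := halve h2 (h1.trans h3.symm)
    subst e
    rw [h1] at hxy
    rcases hxy with h | h
    · exact absurd (by simpa using h) hr
    · rw [← h]; abel
  · intro h1 h3
    have e : x = y := halve h2 (h1.trans h3.symm)
    subst e
    rw [h1] at hxy
    rcases hxy with h | h
    · rw [← h]; abel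
    · exact absurd (by simpa using h) hr

theorem prop_five {A0 A1 A2 A3 A4 B0 B1 B2 B3 B4 P Q P2 Q2 : Prop}
    (e0 : A0 ∨ B0) (e1 : A1 ∨ B1) (e2 : A2 ∨ B2) (e3 : A3 ∨ B3) (e4 : A4 ∨ B4)
    (s0 : (A0 → A1 → P) ∧ (B0 → B1 → Q)) (s1 : (A1 → A2 → P) ∧ (B1 → B2 → Q))
    (s2 : (A2 → A3 → P) ∧ (B2 → B3 → Q)) (s3 : (A3 → A4 → P) ∧ (B3 → B4 → Q))
    (d0 : (A0 → A2 → P2) ∧ (B0 → B2 → Q2)) (d1 : (A1 → A3 → P2) ∧ (B1 → B3 → Q2))
    (d2 : (A2 → A4 → P2) ∧ (B2 → B4 → Q2)) (c1 : ¬ (P ∧ Q)) (c2 : ¬ (P ∧ P2))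
    (c3 : ¬ (Q ∧ Q2)) (c4 : ¬ (P2 ∧ Q2)) : False := by
  rcases e0 with e0 | e0 <;> rcases e1 with e1 | e1 <;> rcases e2 with e2 | e2 <;>
    rcases e3 with e3 | e3 <;> rcases e4 with e4 | e4 <;> simp_all

/-- five consecutive majority labels give a contradiction -/
theorem no_five (h2 : ∀ a : A, a + a = 0 → a = 0) {w1 w2 r : A} (hr : r ≠ 0) (hw : w1 ≠ w2)
    (t : ℕ → A) (h0 : ∀ k, k ≤ 4 → InW w1 w2 (t k + t k))
    (h1 : ∀ k, k ≤ 3 → InW w1 w2 (t k + t (k + 1) + r))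
    (h3 : ∀ k, k ≤ 2 → InW w1 w2 (t k + t (k + 2) + (r + r))) : False := by
  have hrr : r + r ≠ 0 := fun h => hr (h2 r h)
  have hd : w2 - w1 ≠ 0 := fun h => hw (sub_eq_zero.mp h).symm
  have c1 : ¬ (r = w2 - w1 ∧ r = w1 - w2) := by
    rintro ⟨a, b⟩
    apply hd
    apply h2
    calc w2 - w1 + (w2 - w1) = (w2 - w1) - (w1 - w2) := by abel
      _ = 0 := by rw [← a, ← b, sub_self]
  have c2 : ¬ (r = w2 - w1 ∧ r + r = w2 - w1) := by
    rintro ⟨a, b⟩
    apply hr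
    have : r + r = r := b.trans a.symm
    simpa using this
  have c3 : ¬ (r = w1 - w2 ∧ r + r = w1 - w2) := by
    rintro ⟨a, b⟩
    apply hr
    have : r + r = r := b.trans a.symm
    simpa using this
  have c4 : ¬ (r + r = w2 - w1 ∧ r + r = w1 - w2) := by
    rintro ⟨a, b⟩
    apply hd
    apply h2
    calc w2 - w1 + (w2 - w1) = (w2 - w1) - (w1 - w2) := by abel
      _ = 0 := by rw [← a, ← b, sub_self]
  have s0 := step_rel h2 hr (h1 0 (by norm_num))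
  have s1 := step_rel h2 hr (h1 1 (by norm_num))
  have s2 := step_rel h2 hr (h1 2 (by norm_num))
  have s3 := step_rel h2 hr (h1 3 (by norm_num))
  have d0 := step_rel h2 hrr (h3 0 (by norm_num))
  have d1 := step_rel h2 hrr (h3 1 (by norm_num))
  have d2 := step_rel h2 hrr (h3 2 (by norm_num))
  have e0 := h0 0 (by norm_num)
  have e1 := h0 1 (by norm_num)
  have e2 := h0 2 (by norm_num)
  have e3 := h0 3 (by norm_num)
  have e4 := h0 4 (by norm_num)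
  simp only [zero_add, Nat.reduceAdd] at s0 s1 s2 s3 d0 d1 d2
  exact prop_five e0 e1 e2 e3 e4 s0 s1 s2 s3 d0 d1 d2 c1 c2 c3 c4

end Pool.Agent.Lib.MP_0b748d_nt.M3
end

section

set_option autoImplicit false

/-!
# Majority labels along a strip of Farey triangles
-/

namespace Pool.Agent.Lib.MP_0b748d_nt.M3

open Zsqrtd Pool.Agent.Lib.MP_0b748d_nt

variable {A : Type*} [AddCommGroup A]

/-- the good-edge hypothesis in a window -/
def EdgeOK (F : ℤ√2 → A) (w1 w2 : A) (X : ℤ) (lo hi : ℝ) : Prop :=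
  ∀ a b, TP a → TP b → det a b = 1 → lo ≤ th a → th b ≤ hi → B a b ≤ X → InW w1 w2 (F a + F b)

theorem mid_facts {a b v : ℤ√2} (ha : TP a) (hb : TP b) (hd : det a b = 1)
    (h1 : 0 < det a v) (h2 : 0 < det v b) :
    v.re = det v b * a.re + det a v * b.re ∧ v.im = det v b * a.im + det a v * b.im ∧
    nm (a + b) ≤ nm v ∧ B a (a + b) ≤ nm v ∧ B (a + b) b ≤ nm v ∧ B a b ≤ nm v ∧
    nm a ≤ nm v ∧ nm b ≤ nm v := by
  have e1 : v.re = det v b * a.re + det a v * b.re := by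
    simp only [det] at hd ⊢
    linear_combination (-v.re) * hd
  have e2 : v.im = det v b * a.im + det a v * b.im := by
    simp only [det] at hd ⊢
    linear_combination (-v.im) * hd
  have hn : nm v = (det v b) ^ 2 * nm a + 2 * (det v b) * (det a v) * B a b +
      (det a v) ^ 2 * nm b := by
    generalize hx : det v b = x at e1 e2 ⊢
    generalize hy : det a v = y at e1 e2 ⊢
    simp only [nm, B, e1, e2]
    ring
  have hna := ha.nm_pos
  have hnb := hb.nm_pos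
  have hB := B_pos ha hb
  have hx1 : 1 ≤ (det v b) ^ 2 := by nlinarith
  have hy1 : 1 ≤ (det a v) ^ 2 := by nlinarith
  have hxy1 : 1 ≤ (det v b) * (det a v) := by nlinarith
  have p1 : nm a ≤ (det v b) ^ 2 * nm a := by nlinarith
  have p2 : nm b ≤ (det a v) ^ 2 * nm b := by nlinarith
  have p3 : 2 * B a b ≤ 2 * (det v b) * (det a v) * B a b := by nlinarith
  have q1 : nm (a + b) = nm a + 2 * B a b + nm b := by
    simp only [nm, B, re_add, im_add]; ring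
  have q2 : B a (a + b) = nm a + B a b := by
    simp only [nm, B, re_add, im_add]; ring
  have q3 : B (a + b) b = B a b + nm b := by
    simp only [nm, B, re_add, im_add]; ring
  refine ⟨e1, e2, ?_, ?_, ?_, ?_, ?_, ?_⟩
  · rw [q1, hn]; linarith
  · rw [q2, hn]; linarith
  · rw [q3, hn]; linarith
  · rw [hn]; linarith
  · rw [hn]; linarith
  · rw [hn]; linarith

theorem strip (h2 : ∀ a : A, a + a = 0 → a = 0) {F : ℤ√2 → A} {w1 w2 t : A} {X : ℤ}
    {lo hi : ℝ} (hE : EdgeOK F w1 w2 X lo hi) :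
    ∀ n : ℕ, ∀ a b v, TP a → TP b → det a b = 1 → lo ≤ th a → th b ≤ hi → TP v → Prim v →
      0 < det a v → 0 < det v b → det a v + det v b ≤ n → nm v ≤ X →
      Maj w1 w2 t (F a) (F b) → InW w1 w2 (F v + t) := by
  intro n
  induction n with
  | zero =>
    intro a b v _ _ _ _ _ _ _ h1 h3 h4
    push_cast at h4
    omega
  | succ n ih =>
    intro a b v ha hb hd hlo hhi hv pv h1 h3 h4 hX hM
    obtain ⟨e1, e2, m1, m2, m3, m4, _, _⟩ := mid_facts ha hb hd h1 h3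
    have hda : det a (a + b) = 1 := by
      rw [← hd]; simp only [det, re_add, im_add]; ring
    have hdb : det (a + b) b = 1 := by
      rw [← hd]; simp only [det, re_add, im_add]; ring
    have hc := ha.add hb
    have tac : th a < th (a + b) := (th_lt_iff ha hc).2 (by rw [hda]; exact one_pos)
    have tcb : th (a + b) < th b := (th_lt_iff hc hb).2 (by rw [hdb]; exact one_pos)
    have i1 := hE a (a + b) ha hc hda hlo (by linarith) (by omega)
    have i2 := hE (a + b) b hc hb hdb (by linarith) hhi (by omega)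
    obtain ⟨k1, k2, k3⟩ := hM.third h2 i1 i2
    have hcv : det (a + b) v = det a v - det v b := by
      simp only [det, re_add, im_add]; ring
    have hvc : det v (a + b) = det v b - det a v := by
      simp only [det, re_add, im_add]; ring
    push_cast at h4
    rcases lt_trichotomy (det a v) (det v b) with h | h | h
    · exact ih a (a + b) v ha hc hda hlo (by linarith) hv pv h1 (by rw [hvc]; omega)
        (by rw [hvc]; omega) hX k2
    · -- v = a + b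
      rw [← h] at e1 e2
      have hx1 : det a v = 1 := by
        obtain ⟨u1, u2, hu⟩ := pv
        have hdvd : det a v ∣ 1 := by
          rw [← hu]
          apply dvd_add
          · exact Dvd.dvd.mul_left ⟨a.re + b.re, by linarith⟩ u1
          · exact Dvd.dvd.mul_left ⟨a.im + b.im, by linarith⟩ u2
        have := Int.le_of_dvd one_pos hdvd
        omega
      rw [hx1] at e1 e2
      have hvab : v = a + b := by
        ext
        · rw [e1, re_add]; ring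
        · rw [e2, im_add]; ring
      rw [hvab]
      exact k1
    · exact ih (a + b) b v hc hb hdb (by linarith) hhi hv pv (by rw [hcv]; omega) h3
        (by rw [hcv]; omega) hX k3

/-- the common label of a base edge -/
theorem base_label (h2 : ∀ a : A, a + a = 0 → a = 0) {F : ℤ√2 → A} {w1 w2 : A} {X : ℤ}
    {lo hi : ℝ} (hE : EdgeOK F w1 w2 X lo hi) {a b z : ℤ√2} (ha : TP a) (hb : TP b)
    (hd : det a b = 1) (hlo : lo ≤ th a) (hhi : th b ≤ hi) (h1 : 0 < det a z)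
    (h3 : 0 < det z b) (hX : nm z ≤ X) :
    ∃ t, InW w1 w2 (t + t) ∧ ∀ v, TP v → Prim v → 0 < det a v → 0 < det v b → nm v ≤ X →
      InW w1 w2 (F v + t) := by
  obtain ⟨_, _, m1, m2, m3, m4, _, _⟩ := mid_facts ha hb hd h1 h3
  have hda : det a (a + b) = 1 := by
    rw [← hd]; simp only [det, re_add, im_add]; ring
  have hdb : det (a + b) b = 1 := by
    rw [← hd]; simp only [det, re_add, im_add]; ring
  have hc := ha.add hb
  have tac : th a < th (a + b) := (th_lt_iff ha hc).2 (by rw [hda]; exact one_pos)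
  have tcb : th (a + b) < th b := (th_lt_iff hc hb).2 (by rw [hdb]; exact one_pos)
  have i0 := hE a b ha hb hd hlo hhi (by omega)
  have i1 := hE a (a + b) ha hc hda hlo (by linarith) (by omega)
  have i2 := hE (a + b) b hc hb hdb (by linarith) hhi (by omega)
  obtain ⟨t, ht⟩ := exists_maj i0 i1 i2
  refine ⟨t, ht.1, ?_⟩
  intro v hv pv h4 h5 h6
  exact strip h2 hE (det a v + det v b).toNat a b v ha hb hd hlo hhi hv pv h4 h5
    (by rw [Int.toNat_of_nonneg (by omega)]) h6 ht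

end Pool.Agent.Lib.MP_0b748d_nt.M3
end
end

section

section

set_option autoImplicit false

/-!
# Elements of prime norm and multiplication by them
-/

namespace Pool.Agent.Lib.MP_0b748d_nt.M3

open Zsqrtd Pool.Agent.Lib.MP_0b748d_nt

variable {A : Type*} [AddCommGroup A]

theorem th_bound {z : ℤ√2} (hz : TP z) {p n : ℕ} (hn : nm z = p) (hnp : n * n ≤ p)
    (hx : |z.re| ≤ 3 * n) (hy : |z.im| ≤ 2 * n) : |th z| ≤ 2 := by
  have hs := sqrt2_lt
  have hs0 := sqrt2_pos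
  have hx' : |(z.re : ℝ)| ≤ 3 * n := by exact_mod_cast hx
  have hy' : |(z.im : ℝ)| ≤ 2 * n := by exact_mod_cast hy
  have hn0 : (0 : ℝ) ≤ n := by positivity
  have hnpR : (n : ℝ) * n ≤ p := by exact_mod_cast hnp
  have hb1 : s1 z ≤ 6 * n := by
    simp only [s1]
    have h1 := (abs_le.1 hx').2
    have h2 := (abs_le.1 hy').2
    nlinarith
  have hb2 : s2 z ≤ 6 * n := by
    simp only [s2]
    have h1 := (abs_le.1 hx').2
    have h2 := (abs_le.1 hy').1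
    nlinarith
  have h12 : s1 z * s2 z = p := by rw [s1_mul_s2, hn]; norm_num
  have hz1 := hz.1
  have hz2 := hz.2
  have he := Real.exp_one_gt_d9
  have e4 : (36 : ℝ) ≤ Real.exp 4 := by
    have h1 : Real.exp 4 = Real.exp 1 * Real.exp 1 * (Real.exp 1 * Real.exp 1) := by
      rw [← Real.exp_add, ← Real.exp_add]
      norm_num
    rw [h1]
    have h2 : (7.3 : ℝ) ≤ Real.exp 1 * Real.exp 1 := by nlinarith
    nlinarith
  have hr1 : s1 z ≤ 36 * s2 z := by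
    have : s1 z * s1 z ≤ 36 * s2 z * s1 z := by
      calc s1 z * s1 z ≤ (6 * n) * (6 * n) := by gcongr
        _ = 36 * (n * n) := by ring
        _ ≤ 36 * p := by linarith
        _ = 36 * s2 z * s1 z := by rw [← h12]; ring
    exact le_of_mul_le_mul_right this hz1
  have hr2 : s2 z ≤ 36 * s1 z := by
    have : s2 z * s2 z ≤ 36 * s1 z * s2 z := by
      calc s2 z * s2 z ≤ (6 * n) * (6 * n) := by gcongr
        _ = 36 * (n * n) := by ring
        _ ≤ 36 * p := by linarith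
        _ = 36 * s1 z * s2 z := by rw [← h12]; ring
    exact le_of_mul_le_mul_right this hz2
  have l36 : Real.log 36 ≤ 4 := by
    rw [Real.log_le_iff_le_exp (by norm_num)]
    exact e4
  have g1 : Real.log (s1 z) ≤ Real.log 36 + Real.log (s2 z) := by
    rw [← Real.log_mul (by norm_num) hz2.ne']
    exact Real.log_le_log hz1 hr1
  have g2 : Real.log (s2 z) ≤ Real.log 36 + Real.log (s1 z) := by
    rw [← Real.log_mul (by norm_num) hz1.ne']
    exact Real.log_le_log hz2 hr2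
  simp only [th]
  rw [abs_le]
  constructor <;> linarith

theorem exists_rho (p j : ℕ) (hp : p.Prime) (hj : 2 ≤ j) (hpj : p ∣ j ^ 2 - 2) :
    ∃ z : ℤ√2, TP z ∧ nm z = p ∧ |th z| ≤ 2 := by
  classical
  have : Fact p.Prime := ⟨hp⟩
  obtain ⟨r, hr⟩ : ∃ r : ZMod p, 2 = r * r := by
    refine ⟨(j : ZMod p), ?_⟩
    have h1 : ((j ^ 2 - 2 : ℕ) : ZMod p) = 0 := (ZMod.natCast_eq_zero_iff _ _).2 hpj
    have h2 : j ^ 2 = (j ^ 2 - 2) + 2 := by
      have : 4 ≤ j ^ 2 := by nlinarith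
      omega
    have h3 : ((j ^ 2 : ℕ) : ZMod p) = ((j ^ 2 - 2 : ℕ) : ZMod p) + 2 := by
      conv_lhs => rw [h2]
      push_cast
      rfl
    rw [h1, zero_add] at h3
    rw [← h3]
    push_cast
    ring
  set n := Nat.sqrt p with hn
  have hn1 : n * n ≤ p := Nat.sqrt_le p
  have hn2 : p < (n + 1) * (n + 1) := Nat.lt_succ_sqrt p
  have hn3 : n * n < p := by
    rcases lt_or_eq_of_le hn1 with h | h
    · exact h
    · exfalso
      have hd : n ∣ p := ⟨n, h.symm⟩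
      rcases (Nat.dvd_prime hp).mp hd with h1 | h1
      · rw [h1] at h
        have := hp.two_le
        omega
      · rw [h1] at h
        have := hp.two_le
        nlinarith
  have hcard : (Finset.univ : Finset (ZMod p)).card <
      (Finset.range (n + 1) ×ˢ Finset.range (n + 1)).card := by
    rw [Finset.card_univ, ZMod.card, Finset.card_product, Finset.card_range]
    exact hn2
  obtain ⟨x, hx, y, hy, hxy, hf⟩ := Finset.exists_ne_map_eq_of_card_lt_of_maps_to hcard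
    (f := fun q : ℕ × ℕ => (q.1 : ZMod p) - r * (q.2 : ZMod p))
    (fun _ _ => Finset.mem_coe.mpr (Finset.mem_univ _))
  rw [Finset.mem_product, Finset.mem_range, Finset.mem_range] at hx hy
  set X : ℤ := (x.1 : ℤ) - y.1 with hX
  set Y : ℤ := (x.2 : ℤ) - y.2 with hY
  have hXY : ((X : ℤ) : ZMod p) = r * ((Y : ℤ) : ZMod p) := by
    simp only [hX, hY]
    push_cast
    linear_combination hf
  have hdvd : (p : ℤ) ∣ X ^ 2 - 2 * Y ^ 2 := by
    rw [← ZMod.intCast_zmod_eq_zero_iff_dvd]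
    push_cast
    rw [hXY, hr]
    ring
  have hX1 : X ≤ n := by omega
  have hX2 : -n ≤ X := by omega
  have hY1 : Y ≤ n := by omega
  have hY2 : -n ≤ Y := by omega
  have hXb : X ^ 2 ≤ n * n := by nlinarith
  have hYb : Y ^ 2 ≤ n * n := by nlinarith
  have hn3' : (n : ℤ) * n < p := by exact_mod_cast hn3
  have hne : X ^ 2 - 2 * Y ^ 2 ≠ 0 := by
    intro h
    obtain ⟨h1, h2⟩ := PrimeElt_ne_zero X Y h
    apply hxy
    ext <;> omega
  obtain ⟨k, hk⟩ := hdvd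
  have hp0 : (0 : ℤ) < p := by exact_mod_cast hp.pos
  have hk1 : k < 1 := by
    by_contra hc
    push Not at hc
    nlinarith [sq_nonneg Y]
  have hk2 : -2 < k := by
    by_contra hc
    push Not at hc
    nlinarith [sq_nonneg X]
  have hk0 : k ≠ 0 := by
    rintro rfl
    rw [mul_zero] at hk
    exact hne hk
  have hk3 : k = -1 := by omega
  rw [hk3] at hk
  have hnorm : (X + 2 * Y) ^ 2 - 2 * (X + Y) ^ 2 = p := by linarith
  have hre : X + 2 * Y ≠ 0 := by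
    intro h
    rw [h] at hnorm
    nlinarith [sq_nonneg (X + Y)]
  rcases lt_or_gt_of_ne hre with h | h
  · have hTP : TP ⟨-(X + 2 * Y), -(X + Y)⟩ := by
      rw [TP_iff]
      refine ⟨by simp only; omega, ?_⟩
      simp only [nm]
      have : (-(X + 2 * Y)) ^ 2 - 2 * (-(X + Y)) ^ 2 = p := by rw [← hnorm]; ring
      rw [this]
      exact hp0
    have hnm : nm ⟨-(X + 2 * Y), -(X + Y)⟩ = p := by
      simp only [nm]
      rw [← hnorm]
      ring
    refine ⟨_, hTP, hnm, th_bound hTP (n := n) hnm hn1 ?_ ?_⟩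
    · simp only
      rw [abs_le]
      constructor <;> omega
    · simp only
      rw [abs_le]
      constructor <;> omega
  · have hTP : TP ⟨X + 2 * Y, X + Y⟩ := by
      rw [TP_iff]
      refine ⟨h, ?_⟩
      simp only [nm]
      rw [hnorm]
      exact hp0
    have hnm : nm ⟨X + 2 * Y, X + Y⟩ = p := by
      simp only [nm]
      exact hnorm
    refine ⟨_, hTP, hnm, th_bound hTP (n := n) hnm hn1 ?_ ?_⟩
    · simp only
      rw [abs_le]
      constructor <;> omega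
    · simp only
      rw [abs_le]
      constructor <;> omega

section suit

variable {ρ : ℤ√2} {p : ℕ}

theorem rho_not_dvd (hp : p.Prime) (hρ : nm ρ = p) (h1 : (p : ℤ) ∣ ρ.re)
    (h2 : (p : ℤ) ∣ ρ.im) : False := by
  have h3 : (p : ℤ) ^ 2 ∣ (p : ℤ) := by
    have h4 : (p : ℤ) ^ 2 ∣ ρ.re ^ 2 - 2 * ρ.im ^ 2 :=
      dvd_sub (pow_dvd_pow_of_dvd h1 2) ((pow_dvd_pow_of_dvd h2 2).mul_left 2)
    have h5 : ρ.re ^ 2 - 2 * ρ.im ^ 2 = p := hρ
    rwa [h5] at h4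
  have h5 : p ^ 2 ∣ p := by exact_mod_cast h3
  have h6 := Nat.le_of_dvd hp.pos h5
  have h7 := hp.two_le
  nlinarith

theorem suit_pair (hp : p.Prime) (hρ : nm ρ = p) {a b : ℤ√2} (hab : det a b = 1)
    (h1 : (p : ℤ) ∣ (ρ * a).im) (h2 : (p : ℤ) ∣ (ρ * b).im) : False := by
  simp only [im_mul] at h1 h2
  simp only [det] at hab
  apply rho_not_dvd hp hρ
  · have e : ρ.re = (ρ.re * b.im + ρ.im * b.re) * a.re - (ρ.re * a.im + ρ.im * a.re) * b.re := by
      linear_combination (-ρ.re) * hab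
    rw [e]
    exact dvd_sub (h2.mul_right _) (h1.mul_right _)
  · have e : ρ.im = (ρ.re * a.im + ρ.im * a.re) * b.im - (ρ.re * b.im + ρ.im * b.re) * a.im := by
      linear_combination (-ρ.im) * hab
    rw [e]
    exact dvd_sub (h1.mul_right _) (h2.mul_right _)

theorem suit_prim (hp : p.Prime) (hρ : nm ρ = p) {z : ℤ√2} (hz : Prim z)
    (h : ¬ (p : ℤ) ∣ (ρ * z).im) : Prim (ρ * z) := by
  unfold Prim
  rw [Int.isCoprime_iff_gcd_eq_one]
  set d := Int.gcd (ρ * z).re (ρ * z).im with hd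
  have d1 : (d : ℤ) ∣ (ρ * z).re := Int.gcd_dvd_left _ _
  have d2 : (d : ℤ) ∣ (ρ * z).im := Int.gcd_dvd_right _ _
  have hρ' : ρ.re ^ 2 - 2 * ρ.im ^ 2 = p := hρ
  have d3 : (d : ℤ) ∣ p * z.re := by
    have e : (p : ℤ) * z.re = ρ.re * (ρ * z).re - 2 * ρ.im * (ρ * z).im := by
      simp only [re_mul, im_mul]
      linear_combination (-z.re) * hρ'
    rw [e]
    exact dvd_sub (d1.mul_left _) (d2.mul_left _)
  have d4 : (d : ℤ) ∣ p * z.im := by
    have e : (p : ℤ) * z.im = ρ.re * (ρ * z).im - ρ.im * (ρ * z).re := by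
      simp only [re_mul, im_mul]
      linear_combination (-z.im) * hρ'
    rw [e]
    exact dvd_sub (d2.mul_left _) (d1.mul_left _)
  have d5 : (d : ℤ) ∣ p := by
    obtain ⟨u, v, huv⟩ := hz
    have e : (p : ℤ) = u * (p * z.re) + v * (p * z.im) := by
      linear_combination (-(p : ℤ)) * huv
    rw [e]
    exact dvd_add (d3.mul_left _) (d4.mul_left _)
  have d6 : d ∣ p := by exact_mod_cast d5
  rcases (Nat.dvd_prime hp).1 d6 with h1 | h1
  · exact h1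
  · exfalso
    rw [h1] at d2
    exact h d2

theorem suit_two (hp : p.Prime) (hp2 : p ≠ 2) (hρ : nm ρ = p) {z : ℤ√2}
    (h : ¬ (p : ℤ) ∣ (ρ * z).im) : ¬ (p : ℤ) ∣ (ρ * (ρ * z)).im := by
  intro hc
  have hρ' : ρ.re ^ 2 - 2 * ρ.im ^ 2 = p := hρ
  have hpZ : Prime (p : ℤ) := Nat.prime_iff_prime_int.1 hp
  have e : (ρ * (ρ * z)).im = 2 * ρ.re * (ρ * z).im - p * z.im := by
    simp only [re_mul, im_mul]
    linear_combination (-z.im) * hρ'
  rw [e] at hc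
  have h1 : (p : ℤ) ∣ 2 * ρ.re * (ρ * z).im := by
    have := dvd_add hc (dvd_mul_right (p : ℤ) z.im)
    simpa using this
  rcases hpZ.dvd_or_dvd h1 with h2 | h2
  · rcases hpZ.dvd_or_dvd h2 with h3 | h3
    · have : p ∣ 2 := by exact_mod_cast h3
      exact hp2 ((Nat.prime_dvd_prime_iff_eq hp Nat.prime_two).1 this)
    · -- p ∣ re: then p ∣ im
      apply rho_not_dvd hp hρ h3
      have h4 : (p : ℤ) ∣ 2 * ρ.im ^ 2 := by
        have e2 : 2 * ρ.im ^ 2 = ρ.re ^ 2 - p := by linarith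
        rw [e2]
        exact dvd_sub (h3.trans (dvd_pow_self _ two_ne_zero)) dvd_rfl
      rcases hpZ.dvd_or_dvd h4 with h5 | h5
      · have : p ∣ 2 := by exact_mod_cast h5
        exact absurd ((Nat.prime_dvd_prime_iff_eq hp Nat.prime_two).1 this) hp2
      · exact hpZ.dvd_of_dvd_pow h5
  · exact h h2

end suit

end Pool.Agent.Lib.MP_0b748d_nt.M3
end

section

set_option autoImplicit false

/-!
# Triangles near an angle, and the label of a good angle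
-/

namespace Pool.Agent.Lib.MP_0b748d_nt.M3

open Zsqrtd Pool.Agent.Lib.MP_0b748d_nt

variable {A : Type*} [AddCommGroup A]

/-- completely additive on positive integers -/
def CA (g : ℕ → A) : Prop := ∀ m n : ℕ, 0 < m → 0 < n → g (m * n) = g m + g n

/-- the label of a totally positive element -/
def FA (g : ℕ → A) (z : ℤ√2) : A := g (nm z).toNat

theorem FA_mul {g : ℕ → A} (hg : CA g) {z w : ℤ√2} (hz : TP z) (hw : TP w) :
    FA g (z * w) = FA g z + FA g w := by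
  have h1 := hz.nm_pos
  have h2 := hw.nm_pos
  rw [FA, nm_mul, Int.toNat_mul h1.le h2.le]
  exact hg _ _ (by omega) (by omega)

theorem FA_edge {g : ℕ → A} (hg : CA g) {a b : ℤ√2} (ha : TP a) (hb : TP b)
    (h : det a b = 1) : FA g a + FA g b = g ((B a b).toNat ^ 2 - 2) := by
  have h1 := ha.nm_pos
  have h2 := hb.nm_pos
  rw [FA, FA, ← hg _ _ (by omega) (by omega), ← Int.toNat_mul h1.le h2.le, B_sq, h]
  have h3 := B_edge_ge ha hb h
  congr 1
  have h4 : ((B a b).toNat : ℤ) = B a b := Int.toNat_of_nonneg (by omega)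
  have h5 : 2 ≤ (B a b).toNat := by omega
  have h6 : 2 ≤ (B a b).toNat ^ 2 := by nlinarith
  zify [h6]
  rw [h4, Int.toNat_of_nonneg (by nlinarith)]
  ring

/-- every primitive element is the endpoint of a small edge -/
theorem vertex_edge {c : ℤ√2} (hc : TP c) (pc : Prim c) :
    ∃ d, TP d ∧ det c d = 1 ∧ 2 ≤ B c d ∧ B c d ≤ nm c + 1 := by
  obtain ⟨u1, u2, hu⟩ := pc
  have hm := hc.nm_pos
  set m := nm c with hm'
  set β : ℤ := B c ⟨-u2, u1⟩ with hβ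
  set k : ℤ := -((β - 2) / m) with hk
  set d : ℤ√2 := ⟨-u2 + k * c.re, u1 + k * c.im⟩ with hd
  have h1 : det c d = 1 := by
    simp only [det, hd]
    linear_combination hu
  have h2 : B c d = β + k * m := by
    simp only [B, hd, hβ, hm', nm]
    ring
  have h3 : m * ((β - 2) / m) + (β - 2) % m = β - 2 := Int.mul_ediv_add_emod _ _
  have h4 : 0 ≤ (β - 2) % m := Int.emod_nonneg _ hm.ne'
  have h5 : (β - 2) % m < m := Int.emod_lt_of_pos _ hm
  have h6 : B c d = 2 + (β - 2) % m := by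
    rw [h2, hk]
    linarith
  refine ⟨d, ?_, h1, by omega, by omega⟩
  have e1 := cross1 c d
  have e2 := cross2 c d
  rw [h1] at e1 e2
  have hB2 : (2 : ℝ) ≤ B c d := by exact_mod_cast (by omega : (2 : ℤ) ≤ B c d)
  have hs := sqrt2_lt
  have hs0 := sqrt2_pos
  constructor
  · have : 0 < s1 d * s2 c := by
      rw [e1]
      push_cast
      linarith
    exact (pos_iff_pos_of_mul_pos this).2 hc.2
  · have : 0 < s1 c * s2 d := by
      rw [e2]
      push_cast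
      linarith
    exact (pos_iff_pos_of_mul_pos this).1 hc.1

/-- `θ` is not close to the endpoints (and the midpoint) of small edges -/
def FarK (K : ℤ) (η θ : ℝ) : Prop :=
  ∀ c d, TP c → TP d → det c d = 1 → B c d ≤ K →
    η < |th c - θ| ∧ η < |th d - θ| ∧ η < |th (c + d) - θ|

/-- a triangle of small norms near `θ` -/
theorem tri {K Z0 Z1 V : ℤ} (hZ0 : 2 ≤ Z0) (hZ01 : Z0 ≤ Z1) (hV : Z0 ^ 2 ≤ V * Z1)
    (hVK : V + 1 ≤ K) {θ : ℝ} (h1 : FarK K (5 / (Z0 : ℝ)) θ) (h2 : FarK Z0 (5 / (Z1 : ℝ)) θ) :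
    ∃ a b, TP a ∧ TP b ∧ det a b = 1 ∧ |th a - θ| ≤ 5 / (Z0 : ℝ) ∧ |th b - θ| ≤ 5 / (Z0 : ℝ) ∧
      |th (a + b) - θ| ≤ 5 / (Z0 : ℝ) ∧ nm a ≤ 9 * Z1 ∧ nm b ≤ 9 * Z1 ∧ nm (a + b) ≤ 9 * Z1 := by
  obtain ⟨c, d, hc, hd, hcd, hB, hcθ, hdθ, h⟩ := locate Z0 hZ0 θ
  have hcd' := hc.add hd
  have hda : det c (c + d) = 1 := by
    rw [← hcd]; simp only [det, re_add, im_add]; ring
  have hdb : det (c + d) d = 1 := by
    rw [← hcd]; simp only [det, re_add, im_add]; ring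
  have hZ0R : (2 : ℝ) ≤ Z0 := by exact_mod_cast hZ0
  have hZ1R : (0 : ℝ) < Z1 := by
    have : (Z0 : ℝ) ≤ Z1 := by exact_mod_cast hZ01
    linarith
  have hnc := hc.nm_pos
  have hnd := hd.nm_pos
  have hBp := B_edge_ge hc hd hcd
  obtain ⟨f1, f2, f3⟩ := h2 c d hc hd hcd hB
  have hsq := B_sq c d
  rw [hcd] at hsq
  have q1 : nm (c + d) = nm c + 2 * B c d + nm d := by
    simp only [nm, B, re_add, im_add]; ring
  have q2 : B c (c + d) = nm c + B c d := by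
    simp only [nm, B, re_add, im_add]; ring
  have q3 : B (c + d) d = B c d + nm d := by
    simp only [nm, B, re_add, im_add]; ring
  -- if an endpoint is close to θ and of small norm: contradiction
  have hsmall : ∀ v : ℤ√2, TP v → Prim v → nm v ≤ V → ¬ |th v - θ| ≤ 5 / (Z0 : ℝ) := by
    intro v hv pv hnv hclose
    obtain ⟨w, hw, hvw, _, hBw⟩ := vertex_edge hv pv
    have := (h1 v w hv hw hvw (by omega)).1
    linarith
  rcases h with ⟨hθ, hbig⟩ | ⟨hθ, hbig⟩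
  · -- edge (c, c + d)
    have hlen := edge_len_le hc hcd' hda
    have hBR : (Z0 : ℝ) < B c (c + d) := by exact_mod_cast hbig
    have hlen2 : 5 / (B c (c + d) : ℝ) ≤ 5 / (Z0 : ℝ) := by gcongr
    have hBZ1 : B c (c + d) < Z1 := by
      by_contra hcon
      push Not at hcon
      have h3 : (Z1 : ℝ) ≤ B c (c + d) := by exact_mod_cast hcon
      have h4 : 5 / (B c (c + d) : ℝ) ≤ 5 / (Z1 : ℝ) := by gcongr
      have h5 : |th c - θ| ≤ 5 / (Z1 : ℝ) := by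
        rw [abs_le]
        have : 0 < 5 / (Z1 : ℝ) := by positivity
        constructor <;> linarith
      linarith
    have hnd' : nm d ≤ Z1 := by
      by_contra hcon
      push Not at hcon
      refine hsmall c hc (Prim_of_det' hcd) ?_ ?_
      · have h3 : nm c * Z1 < nm c * nm d := by nlinarith
        have h4 : B c d ^ 2 ≤ Z0 ^ 2 := by nlinarith
        have h5 : nm c * Z1 < V * Z1 := by nlinarith
        have hZ1pos : 0 < Z1 := by omega
        exact (lt_of_mul_lt_mul_right h5 hZ1pos.le).le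
      · rw [abs_le]
        have : 0 < 5 / (Z0 : ℝ) := by positivity
        constructor <;> linarith
    have tt : th c < th (c + d) := (th_lt_iff hc hcd').2 (by rw [hda]; exact one_pos)
    have hm : det c (c + (c + d)) = 1 := by
      rw [← hcd]; simp only [det, re_add, im_add]; ring
    have hm' : det (c + (c + d)) (c + d) = 1 := by
      rw [← hcd]; simp only [det, re_add, im_add]; ring
    have hc3 := hc.add hcd'
    have t1 : th c < th (c + (c + d)) := (th_lt_iff hc hc3).2 (by rw [hm]; exact one_pos)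
    have t2 : th (c + (c + d)) < th (c + d) :=
      (th_lt_iff hc3 hcd').2 (by rw [hm']; exact one_pos)
    refine ⟨c, c + d, hc, hcd', hda, ?_, ?_, ?_, by omega, by omega, ?_⟩
    · rw [abs_le]
      constructor <;> linarith
    · rw [abs_le]
      constructor <;> linarith
    · rw [abs_le]
      constructor <;> linarith
    · have : nm (c + (c + d)) = nm c + 2 * B c (c + d) + nm (c + d) := by
        simp only [nm, B, re_add, im_add]; ring
      omega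
  · -- edge (c + d, d)
    have hlen := edge_len_le hcd' hd hdb
    have hBR : (Z0 : ℝ) < B (c + d) d := by exact_mod_cast hbig
    have hlen2 : 5 / (B (c + d) d : ℝ) ≤ 5 / (Z0 : ℝ) := by gcongr
    have hBZ1 : B (c + d) d < Z1 := by
      by_contra hcon
      push Not at hcon
      have h3 : (Z1 : ℝ) ≤ B (c + d) d := by exact_mod_cast hcon
      have h4 : 5 / (B (c + d) d : ℝ) ≤ 5 / (Z1 : ℝ) := by gcongr
      have h5 : |th d - θ| ≤ 5 / (Z1 : ℝ) := by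
        rw [abs_le]
        have : 0 < 5 / (Z1 : ℝ) := by positivity
        constructor <;> linarith
      linarith
    have hnc' : nm c ≤ Z1 := by
      by_contra hcon
      push Not at hcon
      refine hsmall d hd (Prim_of_det hcd) ?_ ?_
      · have h3 : nm d * Z1 < nm c * nm d := by nlinarith
        have h4 : B c d ^ 2 ≤ Z0 ^ 2 := by nlinarith
        have h5 : nm d * Z1 < V * Z1 := by nlinarith
        have hZ1pos : 0 < Z1 := by omega
        exact (lt_of_mul_lt_mul_right h5 hZ1pos.le).le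
      · rw [abs_le]
        have : 0 < 5 / (Z0 : ℝ) := by positivity
        constructor <;> linarith
    have tt : th (c + d) < th d := (th_lt_iff hcd' hd).2 (by rw [hdb]; exact one_pos)
    have hm : det (c + d) (c + d + d) = 1 := by
      rw [← hcd]; simp only [det, re_add, im_add]; ring
    have hm' : det (c + d + d) d = 1 := by
      rw [← hcd]; simp only [det, re_add, im_add]; ring
    have hc3 := hcd'.add hd
    have t1 : th (c + d) < th (c + d + d) := (th_lt_iff hcd' hc3).2 (by rw [hm]; exact one_pos)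
    have t2 : th (c + d + d) < th d :=
      (th_lt_iff hc3 hd).2 (by rw [hm']; exact one_pos)
    refine ⟨c + d, d, hcd', hd, hdb, ?_, ?_, ?_, by omega, by omega, ?_⟩
    · rw [abs_le]
      constructor <;> linarith
    · rw [abs_le]
      constructor <;> linarith
    · rw [abs_le]
      constructor <;> linarith
    · have : nm (c + d + d) = nm (c + d) + 2 * B (c + d) d + nm d := by
        simp only [nm, B, re_add, im_add]; ring
      omega

theorem nm_add_ge {a b : ℤ√2} (ha : TP a) (hb : TP b) :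
    B a b ≤ nm (a + b) ∧ B a (a + b) ≤ nm (a + b) ∧ B (a + b) b ≤ nm (a + b) := by
  have h1 := ha.nm_pos
  have h2 := hb.nm_pos
  have h3 := B_pos ha hb
  have q1 : nm (a + b) = nm a + 2 * B a b + nm b := by
    simp only [nm, B, re_add, im_add]; ring
  have q2 : B a (a + b) = nm a + B a b := by
    simp only [nm, B, re_add, im_add]; ring
  have q3 : B (a + b) b = B a b + nm b := by
    simp only [nm, B, re_add, im_add]; ring
  omega

/-- the label of a good angle -/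
theorem good_label (h2 : ∀ a : A, a + a = 0 → a = 0) {g : ℕ → A} (hg : CA g) {w1 w2 : A}
    {N Y : ℕ} {K Z0 Z1 V : ℤ} (hY : 1 ≤ Y) (hK : 40 * Y ≤ K) (hZ0 : 2 ≤ Z0)
    (hZ01 : Z0 ≤ Z1) (hV : Z0 ^ 2 ≤ V * Z1) (hVK : V + 1 ≤ K) (hN : 9 * Z1 ≤ N) {θ : ℝ}
    (hE : ∀ a b, TP a → TP b → det a b = 1 → B a b ≤ N → |th a - θ| ≤ 1 / (4 * Y : ℝ) →
      InW w1 w2 (g ((B a b).toNat ^ 2 - 2)))
    (h1 : FarK K (5 / (Z0 : ℝ)) θ) (h3 : FarK Z0 (5 / (Z1 : ℝ)) θ) :
    ∃ t, InW w1 w2 (t + t) ∧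
      (∀ v, TP v → Prim v → |th v - θ| ≤ 5 / (Z0 : ℝ) → nm v ≤ N → InW w1 w2 (FA g v + t)) ∧
      ∃ a b, TP a ∧ TP b ∧ det a b = 1 ∧ |th a - θ| ≤ 5 / (Z0 : ℝ) ∧
        |th b - θ| ≤ 5 / (Z0 : ℝ) ∧ |th (a + b) - θ| ≤ 5 / (Z0 : ℝ) ∧
        nm a ≤ 9 * Z1 ∧ nm b ≤ 9 * Z1 ∧ nm (a + b) ≤ 9 * Z1 ∧
        InW w1 w2 (FA g a + FA g b) ∧ InW w1 w2 (FA g a + FA g (a + b)) ∧
        InW w1 w2 (FA g (a + b) + FA g b) := by
  obtain ⟨a, b, ha, hb, hab, ta, tb, tc, na, nb, nc⟩ := tri hZ0 hZ01 hV hVK h1 h3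
  have hYR : (1 : ℝ) ≤ Y := by exact_mod_cast hY
  have hKR : (40 * Y : ℝ) ≤ K := by exact_mod_cast hK
  have hK2 : 2 ≤ K := by omega
  obtain ⟨c, d, hc, hd, hcd, hB, hcθ, hdθ, h⟩ := locate K hK2 θ
  obtain ⟨f1, f2, f3⟩ := h1 c d hc hd hcd hB
  -- the base edge
  obtain ⟨p, q, hp, hq, hpq, hpθ, hqθ, hBpq, fp, fq⟩ : ∃ p q, TP p ∧ TP q ∧ det p q = 1 ∧
      th p ≤ θ ∧ θ ≤ th q ∧ K < B p q ∧ 5 / (Z0 : ℝ) < |th p - θ| ∧ 5 / (Z0 : ℝ) < |th q - θ| := by
    rcases h with ⟨hθ, hbig⟩ | ⟨hθ, hbig⟩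
    · exact ⟨c, c + d, hc, hc.add hd, by rw [← hcd]; simp only [det, re_add, im_add]; ring,
        hcθ, hθ, hbig, f1, f3⟩
    · exact ⟨c + d, d, hc.add hd, hd, by rw [← hcd]; simp only [det, re_add, im_add]; ring,
        hθ, hdθ, hbig, f3, f2⟩
  have hlen := edge_len_le hp hq hpq
  have hKB : (K : ℝ) ≤ B p q := by exact_mod_cast hBpq.le
  have hK0 : (0 : ℝ) < K := by linarith
  have hlen2 : 5 / (B p q : ℝ) ≤ 1 / (8 * Y : ℝ) := by
    calc 5 / (B p q : ℝ) ≤ 5 / (K : ℝ) := by gcongr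
      _ ≤ 5 / (40 * Y : ℝ) := by gcongr
      _ = 1 / (8 * Y : ℝ) := by field_simp; norm_num
  have h84 : 1 / (8 * Y : ℝ) ≤ 1 / (4 * Y : ℝ) := by
    apply one_div_le_one_div_of_le (by positivity); linarith
  have hOK : EdgeOK (FA g) w1 w2 (N : ℤ) (th p) (th q) := by
    intro x y hx hy hxy hlo hhi hBN
    rw [FA_edge hg hx hy hxy]
    refine hE x y hx hy hxy hBN ?_
    have hxy' : th x < th y := (th_lt_iff hx hy).2 (by rw [hxy]; exact one_pos)
    rw [abs_le]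
    constructor <;> linarith
  have habs1 : |th p - θ| = θ - th p := by rw [abs_of_nonpos (by linarith)]; ring
  have habs2 : |th q - θ| = th q - θ := abs_of_nonneg (by linarith)
  rw [habs1] at fp
  rw [habs2] at fq
  have hbetween : ∀ v, TP v → |th v - θ| ≤ 5 / (Z0 : ℝ) → 0 < det p v ∧ 0 < det v q := by
    intro v hv hvθ
    rw [abs_le] at hvθ
    exact ⟨(th_lt_iff hp hv).1 (by linarith), (th_lt_iff hv hq).1 (by linarith)⟩
  obtain ⟨b1, b2⟩ := hbetween a ha ta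
  obtain ⟨t, ht, hlab⟩ := base_label h2 hOK hp hq hpq le_rfl le_rfl b1 b2 (by omega)
  refine ⟨t, ht, ?_, a, b, ha, hb, hab, ta, tb, tc, na, nb, nc, ?_, ?_, ?_⟩
  · intro v hv pv hvθ hvN
    obtain ⟨k1, k2⟩ := hbetween v hv hvθ
    exact hlab v hv pv k1 k2 hvN
  · have k1 := hbetween a ha ta
    have k2 := hbetween b hb tb
    refine hOK a b ha hb hab ((th_lt_iff hp ha).2 k1.1).le ((th_lt_iff hb hq).2 k2.2).le ?_
    have := nm_add_ge ha hb
    omega
  · have k1 := hbetween a ha ta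
    have k2 := hbetween (a + b) (ha.add hb) tc
    refine hOK a (a + b) ha (ha.add hb) (by rw [← hab]; simp only [det, re_add, im_add]; ring)
      ((th_lt_iff hp ha).2 k1.1).le ((th_lt_iff (ha.add hb) hq).2 k2.2).le ?_
    have := nm_add_ge ha hb
    omega
  · have k1 := hbetween (a + b) (ha.add hb) tc
    have k2 := hbetween b hb tb
    refine hOK (a + b) b (ha.add hb) hb (by rw [← hab]; simp only [det, re_add, im_add]; ring)
      ((th_lt_iff hp (ha.add hb)).2 k1.1).le ((th_lt_iff hb hq).2 k2.2).le ?_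
    have := nm_add_ge ha hb
    omega

end Pool.Agent.Lib.MP_0b748d_nt.M3
end

section

set_option autoImplicit false

/-!
# Five good angles in arithmetic progression give a contradiction
-/

namespace Pool.Agent.Lib.MP_0b748d_nt.M3

open Zsqrtd Pool.Agent.Lib.MP_0b748d_nt

variable {A : Type*} [AddCommGroup A]

/-- a good angle -/
def GoodAt (g : ℕ → A) (w1 w2 : A) (N Y : ℕ) (K Z0 Z1 : ℤ) (θ : ℝ) : Prop :=
  (∀ a b, TP a → TP b → det a b = 1 → B a b ≤ N → |th a - θ| ≤ 1 / (4 * Y : ℝ) →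
      InW w1 w2 (g ((B a b).toNat ^ 2 - 2))) ∧
  FarK K (5 / (Z0 : ℝ)) θ ∧ FarK Z0 (5 / (Z1 : ℝ)) θ

theorem pick {P Q R U V W : Prop} (h1 : P ∨ Q) (h2 : P ∨ R) (h3 : R ∨ Q) (k1 : ¬ (U ∧ V))
    (k2 : ¬ (U ∧ W)) (k3 : ¬ (W ∧ V)) : (P ∧ ¬ U) ∨ (Q ∧ ¬ V) ∨ (R ∧ ¬ W) := by
  tauto

/-- the data of a good angle -/
theorem good_data (h2 : ∀ a : A, a + a = 0 → a = 0) {g : ℕ → A} (hg : CA g) {w1 w2 : A}
    {N Y p : ℕ} {K Z0 Z1 V : ℤ} {ρ : ℤ√2} (hp : p.Prime) (hρ : nm ρ = p)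
    (hY : 1 ≤ Y) (hK : 40 * Y ≤ K)
    (hZ0 : 2 ≤ Z0) (hZ01 : Z0 ≤ Z1) (hV : Z0 ^ 2 ≤ V * Z1) (hVK : V + 1 ≤ K)
    (hN : 9 * Z1 ≤ N) {θ : ℝ} (hG : GoodAt g w1 w2 N Y K Z0 Z1 θ) :
    ∃ t, InW w1 w2 (t + t) ∧
      (∀ v, TP v → Prim v → |th v - θ| ≤ 5 / (Z0 : ℝ) → nm v ≤ N → InW w1 w2 (FA g v + t)) ∧
      ∃ z, TP z ∧ Prim z ∧ |th z - θ| ≤ 5 / (Z0 : ℝ) ∧ nm z ≤ 9 * Z1 ∧ FA g z = t ∧
        ¬ (p : ℤ) ∣ (ρ * z).im := by
  obtain ⟨t, ht, hlab, a, b, ha, hb, hab, ta, tb, tc, na, nb, nc, i1, i2, i3⟩ :=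
    good_label h2 hg hY hK hZ0 hZ01 hV hVK hN hG.1 hG.2.1 hG.2.2
  have hc := ha.add hb
  have hda : det a (a + b) = 1 := by
    rw [← hab]; simp only [det, re_add, im_add]; ring
  have hdb : det (a + b) b = 1 := by
    rw [← hab]; simp only [det, re_add, im_add]; ring
  have pa : Prim a := Prim_of_det' hab
  have pb : Prim b := Prim_of_det hab
  have pc : Prim (a + b) := Prim_of_det hda
  have la := hlab a ha pa ta (by omega)
  have lb := hlab b hb pb tb (by omega)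
  have lc := hlab (a + b) hc pc tc (by omega)
  refine ⟨t, ht, hlab, ?_⟩
  rcases pick (two_of_three h2 ht la lb i1) (two_of_three h2 ht la lc i2)
    (two_of_three h2 ht lc lb i3)
    (fun h => suit_pair hp hρ hab h.1 h.2) (fun h => suit_pair hp hρ hda h.1 h.2)
    (fun h => suit_pair hp hρ hdb h.1 h.2) with h | h | h
  · exact ⟨a, ha, pa, ta, na, h.1, h.2⟩
  · exact ⟨b, hb, pb, tb, nb, h.1, h.2⟩
  · exact ⟨a + b, hc, pc, tc, nc, h.1, h.2⟩

theorem FA_rho {g : ℕ → A} {ρ : ℤ√2} {p : ℕ} (hρ : nm ρ = p) : FA g ρ = g p := by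
  simp only [FA, hρ, Int.toNat_natCast]

theorem no_good5 (h2 : ∀ a : A, a + a = 0 → a = 0) {g : ℕ → A} (hg : CA g) {w1 w2 : A}
    (hw : w1 ≠ w2) {N Y p : ℕ} {K Z0 Z1 V : ℤ} {ρ : ℤ√2} (hp : p.Prime) (hp2 : p ≠ 2)
    (hρT : TP ρ) (hρ : nm ρ = p) (hgp : g p ≠ 0) (hY : 1 ≤ Y) (hK : 40 * Y ≤ K)
    (hZ0 : 2 ≤ Z0) (hZ01 : Z0 ≤ Z1) (hV : Z0 ^ 2 ≤ V * Z1) (hVK : V + 1 ≤ K)
    (hN : 9 * Z1 * (p : ℤ) ^ 2 ≤ N) {θ : ℝ}
    (hG : ∀ k : ℕ, k ≤ 4 → GoodAt g w1 w2 N Y K Z0 Z1 (θ + k * th ρ)) : False := by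
  have hp1 : (1 : ℤ) ≤ p := by exact_mod_cast hp.one_le
  have hZ1 : 0 < Z1 := by omega
  have hpp : (p : ℤ) ≤ (p : ℤ) ^ 2 := by nlinarith
  have hN9 : 9 * Z1 ≤ N := by nlinarith
  have hdata : ∀ k : ℕ, ∃ t, k ≤ 4 → (InW w1 w2 (t + t) ∧
      (∀ v, TP v → Prim v → |th v - (θ + k * th ρ)| ≤ 5 / (Z0 : ℝ) → nm v ≤ N →
        InW w1 w2 (FA g v + t)) ∧
      ∃ z, TP z ∧ Prim z ∧ |th z - (θ + k * th ρ)| ≤ 5 / (Z0 : ℝ) ∧ nm z ≤ 9 * Z1 ∧
        FA g z = t ∧ ¬ (p : ℤ) ∣ (ρ * z).im) := by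
    intro k
    by_cases hk : k ≤ 4
    · obtain ⟨t, ht⟩ := good_data h2 hg hp hρ hY hK hZ0 hZ01 hV hVK hN9 (hG k hk)
      exact ⟨t, fun _ => ht⟩
    · exact ⟨0, fun h => absurd h hk⟩
  choose t ht using hdata
  refine no_five h2 hgp hw t (fun k hk => (ht k hk).1) ?_ ?_
  · intro k hk
    obtain ⟨_, _, z, hz, pz, tz, nz, lz, sz⟩ := ht k (by omega)
    have h1 := (ht (k + 1) (by omega)).2.1 (ρ * z) (hρT.mul hz) (suit_prim hp hρ pz sz) ?_ ?_
    · rw [FA_mul hg hρT hz, FA_rho hρ, lz] at h1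
      have e : t k + t (k + 1) + g p = g p + t k + t (k + 1) := by abel
      rw [e]
      exact h1
    · rw [th_mul hρT hz]
      refine le_trans (le_of_eq ?_) tz
      congr 1
      push_cast
      ring
    · rw [nm_mul, hρ]
      have := hz.nm_pos
      nlinarith
  · intro k hk
    obtain ⟨_, _, z, hz, pz, tz, nz, lz, sz⟩ := ht k (by omega)
    have s2 := suit_two hp hp2 hρ sz
    have h1 := (ht (k + 2) (by omega)).2.1 (ρ * (ρ * z)) (hρT.mul (hρT.mul hz))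
      (suit_prim hp hρ (suit_prim hp hρ pz sz) s2) ?_ ?_
    · rw [FA_mul hg hρT (hρT.mul hz), FA_mul hg hρT hz, FA_rho hρ, lz] at h1
      have e : t k + t (k + 2) + (g p + g p) = g p + (g p + t k) + t (k + 2) := by abel
      rw [e]
      exact h1
    · rw [th_mul hρT (hρT.mul hz), th_mul hρT hz]
      refine le_trans (le_of_eq ?_) tz
      congr 1
      push_cast
      ring
    · rw [nm_mul, nm_mul, hρ]
      have h3 := hz.nm_pos
      calc (p : ℤ) * (p * nm z) = nm z * (p : ℤ) ^ 2 := by ring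
        _ ≤ 9 * Z1 * (p : ℤ) ^ 2 := by gcongr
        _ ≤ N := hN

end Pool.Agent.Lib.MP_0b748d_nt.M3
end

section

set_option autoImplicit false

/-!
# Union bound
-/

namespace Pool.Agent.Lib.MP_0b748d_nt.M3

open Zsqrtd MeasureTheory Pool.Agent.Lib.MP_0b748d_nt

variable {A : Type*} [AddCommGroup A]

open Classical in
/-- the `n ∈ [2, N]` whose value is neither `w1` nor `w2` -/
noncomputable def SB (g : ℕ → A) (w1 w2 : A) (N : ℕ) : Finset ℕ :=
  (Finset.Icc 2 N).filter (fun n => g (n ^ 2 - 2) ≠ w1 ∧ g (n ^ 2 - 2) ≠ w2)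

def BadA (S : Finset ℕ) (Y : ℕ) : Set ℝ :=
  ⋃ n ∈ S, ⋃ e ∈ EF 16 n, Set.Icc (th e.1 - 1 / (4 * Y : ℝ)) (th e.1 + 1 / (4 * Y : ℝ))

def BadB (K : ℕ) (η : ℝ) : Set ℝ :=
  ⋃ n ∈ Finset.range (K + 1), ⋃ e ∈ EF 16 n,
    (Set.Icc (th e.1 - η) (th e.1 + η) ∪ Set.Icc (th e.2 - η) (th e.2 + η) ∪
      Set.Icc (th (e.1 + e.2) - η) (th (e.1 + e.2) + η))

theorem vol_BadA (S : Finset ℕ) (Y : ℕ) :
    volume (BadA S Y) ≤
      ENNReal.ofReal ((∑ n ∈ S, ((EF 16 n).card : ℝ)) * (2 * (1 / (4 * Y : ℝ)))) := by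
  apply vol_double_le _ _ _ _ (by positivity)
  intro e
  exact vol_Icc _ _

theorem vol_BadB (K : ℕ) (η : ℝ) (hη : 0 ≤ η) :
    volume (BadB K η) ≤
      ENNReal.ofReal ((∑ n ∈ Finset.range (K + 1), ((EF 16 n).card : ℝ)) * (6 * η)) := by
  apply vol_double_le (Finset.range (K + 1)) 16 (fun e =>
    (Set.Icc (th e.1 - η) (th e.1 + η) ∪ Set.Icc (th e.2 - η) (th e.2 + η) ∪
      Set.Icc (th (e.1 + e.2) - η) (th (e.1 + e.2) + η))) _ (by positivity)
  intro e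
  refine (measure_union_le _ _).trans ?_
  refine (add_le_add (measure_union_le _ _) le_rfl).trans ?_
  refine (add_le_add (add_le_add (vol_Icc _ _) (vol_Icc _ _)) (vol_Icc _ _)).trans ?_
  rw [← ENNReal.ofReal_add (by positivity) (by positivity),
    ← ENNReal.ofReal_add (by positivity) (by positivity)]
  apply le_of_eq
  congr 1
  ring

theorem farK_of_not_bad {K : ℕ} {η θ : ℝ} (hη : η ≤ 5 / 2) (hθ : |θ| ≤ 9)
    (h : θ ∉ BadB K η) : FarK K η θ := by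
  intro c d hc hd hcd hB
  by_contra hcon
  apply h
  have hB2 := B_edge_ge hc hd hcd
  have hlen := edge_len_le hc hd hcd
  have hlen2 : 5 / (B c d : ℝ) ≤ 5 / 2 := by
    have : (2 : ℝ) ≤ B c d := by exact_mod_cast hB2
    gcongr
  have hcd' := hc.add hd
  have hda : det c (c + d) = 1 := by
    rw [← hcd]; simp only [det, re_add, im_add]; ring
  have hdb : det (c + d) d = 1 := by
    rw [← hcd]; simp only [det, re_add, im_add]; ring
  have t1 : th c < th (c + d) := (th_lt_iff hc hcd').2 (by rw [hda]; exact one_pos)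
  have t2 : th (c + d) < th d := (th_lt_iff hcd' hd).2 (by rw [hdb]; exact one_pos)
  rw [abs_le] at hθ
  have hcases : |th c - θ| ≤ η ∨ |th d - θ| ≤ η ∨ |th (c + d) - θ| ≤ η := by
    by_contra h'
    push Not at h'
    exact hcon h'
  simp only [BadB, Set.mem_iUnion]
  refine ⟨(B c d).toNat, ?_, (c, d), ?_, ?_⟩
  · simp only [Finset.mem_range]; omega
  · rw [mem_EF]
    refine ⟨hc, hd, hcd, by simp only; omega, ?_⟩
    simp only
    rw [abs_le]
    push_cast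
    rcases hcases with h3 | h3 | h3 <;> rw [abs_le] at h3 <;> constructor <;> linarith
  · simp only
    rcases hcases with h3 | h3 | h3 <;> rw [abs_le] at h3
    · left; left
      rw [Set.mem_Icc]
      constructor <;> linarith
    · left; right
      rw [Set.mem_Icc]
      constructor <;> linarith
    · right
      rw [Set.mem_Icc]
      constructor <;> linarith

theorem goodAt_of_not_bad {g : ℕ → A} {w1 w2 : A} {N Y K Z0 Z1 : ℕ} (hY : 1 ≤ Y)
    (hZ0 : 2 ≤ Z0) (hZ1 : 2 ≤ Z1) {θ : ℝ} (hθ : |θ| ≤ 9)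
    (h1 : θ ∉ BadA (SB g w1 w2 N) Y) (h2 : θ ∉ BadB K (5 / (Z0 : ℝ)))
    (h3 : θ ∉ BadB Z0 (5 / (Z1 : ℝ))) : GoodAt g w1 w2 N Y K Z0 Z1 θ := by
  have hZ0R : (2 : ℝ) ≤ Z0 := by exact_mod_cast hZ0
  have hZ1R : (2 : ℝ) ≤ Z1 := by exact_mod_cast hZ1
  have k1 : 5 / (Z0 : ℝ) ≤ 5 / 2 := by gcongr
  have k2 : 5 / (Z1 : ℝ) ≤ 5 / 2 := by gcongr
  refine ⟨?_, by simpa using farK_of_not_bad k1 hθ h2, by simpa using farK_of_not_bad k2 hθ h3⟩
  intro a b ha hb hab hBN hclose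
  by_contra hcon
  apply h1
  have hB2 := B_edge_ge ha hb hab
  have hYR : (1 : ℝ) ≤ Y := by exact_mod_cast hY
  simp only [BadA, Set.mem_iUnion]
  refine ⟨(B a b).toNat, ?_, (a, b), ?_, ?_⟩
  · simp only [SB, Finset.mem_filter, Finset.mem_Icc]
    refine ⟨by omega, ?_⟩
    unfold InW at hcon
    push Not at hcon
    exact hcon
  · rw [mem_EF]
    refine ⟨ha, hb, hab, by simp only; omega, ?_⟩
    simp only
    have h4 : 1 / (4 * Y : ℝ) ≤ 1 := by
      rw [div_le_one (by positivity)]; linarith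
    rw [abs_le] at hclose hθ ⊢
    push_cast
    constructor <;> linarith
  · rw [Set.mem_Icc]
    rw [abs_le] at hclose
    constructor <;> linarith [hclose.1, hclose.2]

theorem core3 (h2 : ∀ a : A, a + a = 0 → a = 0) {g : ℕ → A} (hg : CA g) {w1 w2 : A}
    (hw : w1 ≠ w2) {N Y p K Z0 Z1 V : ℕ} {ρ : ℤ√2} (hp : p.Prime) (hp2 : p ≠ 2)
    (hρT : TP ρ) (hρ : nm ρ = p) (hρθ : |th ρ| ≤ 2) (hgp : g p ≠ 0) (hY : 1 ≤ Y)
    (hK : 40 * Y ≤ K) (hZ0 : 2 ≤ Z0) (hZ01 : Z0 ≤ Z1) (hV : Z0 ^ 2 ≤ V * Z1) (hVK : V + 1 ≤ K)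
    (hN : 9 * Z1 * p ^ 2 ≤ N) :
    1 ≤ 5 * ((∑ n ∈ SB g w1 w2 N, ((EF 16 n).card : ℝ)) / (2 * Y : ℝ) +
      (∑ n ∈ Finset.range (K + 1), ((EF 16 n).card : ℝ)) * (30 / (Z0 : ℝ)) +
      (∑ n ∈ Finset.range (Z0 + 1), ((EF 16 n).card : ℝ)) * (30 / (Z1 : ℝ))) := by
  by_contra hcon
  push Not at hcon
  set Bad : Set ℝ := BadA (SB g w1 w2 N) Y ∪ BadB K (5 / (Z0 : ℝ)) ∪ BadB Z0 (5 / (Z1 : ℝ))
    with hBad
  have hv1 := vol_BadA (SB g w1 w2 N) Y
  have hv2 := vol_BadB K (5 / (Z0 : ℝ)) (by positivity)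
  have hv3 := vol_BadB Z0 (5 / (Z1 : ℝ)) (by positivity)
  have hA0 : 0 ≤ ∑ n ∈ SB g w1 w2 N, ((EF 16 n).card : ℝ) :=
    Finset.sum_nonneg (fun _ _ => by positivity)
  have hB0 : 0 ≤ ∑ n ∈ Finset.range (K + 1), ((EF 16 n).card : ℝ) :=
    Finset.sum_nonneg (fun _ _ => by positivity)
  have hC0 : 0 ≤ ∑ n ∈ Finset.range (Z0 + 1), ((EF 16 n).card : ℝ) :=
    Finset.sum_nonneg (fun _ _ => by positivity)
  generalize ∑ n ∈ SB g w1 w2 N, ((EF 16 n).card : ℝ) = a at hv1 hA0 hcon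
  generalize ∑ n ∈ Finset.range (K + 1), ((EF 16 n).card : ℝ) = b at hv2 hB0 hcon
  generalize ∑ n ∈ Finset.range (Z0 + 1), ((EF 16 n).card : ℝ) = c at hv3 hC0 hcon
  have hYR : (1 : ℝ) ≤ Y := by exact_mod_cast hY
  have hZ0R : (2 : ℝ) ≤ Z0 := by exact_mod_cast hZ0
  have hZ1R : (2 : ℝ) ≤ Z1 := by exact_mod_cast hZ0.trans hZ01
  have hr0 : 0 ≤ a / (2 * Y : ℝ) + b * (30 / (Z0 : ℝ)) + c * (30 / (Z1 : ℝ)) := by positivity
  have hvol : volume Bad ≤
      ENNReal.ofReal (a / (2 * Y : ℝ) + b * (30 / (Z0 : ℝ)) + c * (30 / (Z1 : ℝ))) := by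
    refine (measure_union_le _ _).trans ?_
    refine (add_le_add (measure_union_le _ _) le_rfl).trans ?_
    refine (add_le_add (add_le_add hv1 hv2) hv3).trans ?_
    rw [← ENNReal.ofReal_add (by positivity) (by positivity),
      ← ENNReal.ofReal_add (by positivity) (by positivity)]
    apply ENNReal.ofReal_le_ofReal
    apply le_of_eq
    field_simp
    ring
  generalize a / (2 * Y : ℝ) + b * (30 / (Z0 : ℝ)) + c * (30 / (Z1 : ℝ)) = r at hr0 hvol hcon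
  have hU : volume (⋃ i ∈ Finset.range 5, (fun x => x + (i : ℝ) * th ρ) ⁻¹' Bad) ≤
      ENNReal.ofReal (((Finset.range 5).card : ℝ) * r) := by
    apply vol_biUnion_le _ _ _
    intro i _
    rw [measure_preimage_add_right]
    exact hvol
  rw [Finset.card_range] at hU
  have hlt : volume (⋃ i ∈ Finset.range 5, (fun x => x + (i : ℝ) * th ρ) ⁻¹' Bad) < 1 := by
    refine lt_of_le_of_lt hU ?_
    rw [← ENNReal.ofReal_one]
    refine (ENNReal.ofReal_lt_ofReal_iff one_pos).2 ?_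
    push_cast
    exact hcon
  obtain ⟨θ, hθ, hθn⟩ : ∃ θ ∈ Set.Icc (0 : ℝ) 1,
      θ ∉ ⋃ i ∈ Finset.range 5, (fun x => x + (i : ℝ) * th ρ) ⁻¹' Bad := by
    by_contra hne
    push Not at hne
    have h1 : volume (Set.Icc (0 : ℝ) 1) ≤
        volume (⋃ i ∈ Finset.range 5, (fun x => x + (i : ℝ) * th ρ) ⁻¹' Bad) :=
      measure_mono hne
    rw [Real.volume_Icc] at h1
    simp only [sub_zero, ENNReal.ofReal_one] at h1
    exact absurd hlt (not_lt.2 h1)
  simp only [Set.mem_iUnion, Set.mem_preimage, not_exists, Finset.mem_range] at hθn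
  refine no_good5 h2 hg hw (N := N) (Y := Y) (K := (K : ℤ)) (Z0 := (Z0 : ℤ)) (Z1 := (Z1 : ℤ))
    (V := (V : ℤ)) hp hp2 hρT hρ hgp hY (by exact_mod_cast hK) (by exact_mod_cast hZ0)
    (by exact_mod_cast hZ01) (by exact_mod_cast hV) (by exact_mod_cast hVK)
    (by exact_mod_cast hN) (θ := θ) ?_
  intro k hk
  have h1 := hθn k (by omega)
  rw [hBad, Set.mem_union, Set.mem_union, not_or, not_or] at h1
  refine goodAt_of_not_bad hY hZ0 (hZ0.trans hZ01) ?_ h1.1.1 h1.1.2 h1.2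
  have h3 : |(k : ℝ) * th ρ| ≤ 8 := by
    rw [abs_mul]
    have hk4 : |(k : ℝ)| ≤ 4 := by
      rw [abs_of_nonneg (by positivity)]
      exact_mod_cast hk
    calc |(k : ℝ)| * |th ρ| ≤ 4 * 2 := by gcongr
      _ = 8 := by norm_num
  have h4 : |θ| ≤ 1 := by rw [abs_le]; constructor <;> linarith [hθ.1, hθ.2]
  have := abs_add_le θ ((k : ℝ) * th ρ)
  linarith

end Pool.Agent.Lib.MP_0b748d_nt.M3
end

section

set_option autoImplicit false

/-!
# Choice of the parameters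
-/

namespace Pool.Agent.Lib.MP_0b748d_nt.M3

open Zsqrtd Pool.Agent.Lib.MP_0b748d_nt

universe u

variable {A : Type u} [AddCommGroup A]

theorem div_low' (a b : ℕ) (hb : 1 ≤ b) (h : b ≤ a) : (a : ℝ) ≤ 2 * b * ((a / b : ℕ) : ℝ) := by
  have h1 : a < b * (a / b + 1) := Nat.lt_mul_div_succ a (show 0 < b by omega)
  have h2 : 1 ≤ a / b := (Nat.one_le_div_iff (by omega)).2 h
  have h3 : a ≤ 2 * b * (a / b) := by
    have : b * (a / b + 1) ≤ 2 * b * (a / b) := by nlinarith only [h2]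
    omega
  exact_mod_cast h3

theorem div_up' (a b : ℕ) : ((a / b : ℕ) : ℝ) * b ≤ a := by
  exact_mod_cast Nat.div_mul_le_self a b

theorem fin3 (h2 : ∀ a : A, a + a = 0 → a = 0) {g : ℕ → A} (hg : CA g) {w1 w2 : A}
    (hw : w1 ≠ w2) {N p E k j : ℕ} (hp : p.Prime) (hp2 : p ≠ 2) (hj : 2 ≤ j)
    (hpj : p ∣ j ^ 2 - 2) (hgp : g p ≠ 0) (hk : 1 ≤ k) (hE0 : 100000 ≤ E)
    (hE1 : 89100 * (1 + Real.log N) ^ 16 ≤ E)
    (hE2 : 33 ^ (k + 1) * (2 ^ (k + 2) * (1 + Real.log N) ^ (2 ^ (2 * k + 3))) ≤ E)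
    (hbig : E ^ 4 * p ^ 2 ≤ N) :
    (N : ℝ) / ((E : ℝ) ^ 7 * (p : ℝ) ^ (2 + 2 / (k : ℝ))) ≤ (SB g w1 w2 N).card := by
  obtain ⟨ρ, hρT, hρ, hρθ⟩ := exists_rho p j hp hj hpj
  have hE0R : (100000 : ℝ) ≤ E := by exact_mod_cast hE0
  have hp1 : 1 ≤ p := hp.one_le
  have hp1R : (1 : ℝ) ≤ p := by exact_mod_cast hp1
  have hpp : 1 ≤ p ^ 2 := Nat.one_le_pow _ _ hp1
  -- the parameters
  obtain ⟨P9, hP9⟩ : ∃ P9, P9 = 9 * p ^ 2 := ⟨_, rfl⟩
  have hP91 : 1 ≤ P9 := by omega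
  have hN0 : E ^ 3 * P9 ≤ N := by
    refine le_trans ?_ hbig
    rw [hP9]
    calc E ^ 3 * (9 * p ^ 2) = 9 * (E ^ 3 * p ^ 2) := by ring
      _ ≤ E * (E ^ 3 * p ^ 2) := Nat.mul_le_mul_right _ (by omega)
      _ = E ^ 4 * p ^ 2 := by ring
  have hE3 : 1 ≤ E ^ 3 := Nat.one_le_pow _ _ (by omega)
  have hPN : P9 ≤ N := le_trans (Nat.le_mul_of_pos_left _ hE3) hN0
  obtain ⟨Z1, hZ1⟩ : ∃ Z1, Z1 = N / P9 := ⟨_, rfl⟩
  have a1 := div_up' N P9
  have a2 := div_low' N P9 hP91 hPN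
  rw [← hZ1] at a1 a2
  have hEZ1 : E ^ 3 ≤ Z1 := by
    rw [hZ1, Nat.le_div_iff_mul_le (by omega)]
    exact hN0
  have hEE3 : E ≤ E ^ 3 := by
    calc E = E ^ 1 := by ring
      _ ≤ E ^ 3 := Nat.pow_le_pow_right (by omega) (by norm_num)
  obtain ⟨Z0, hZ0⟩ : ∃ Z0, Z0 = Z1 / E := ⟨_, rfl⟩
  have b1 := div_up' Z1 E
  have b2 := div_low' Z1 E (by omega) (by omega)
  rw [← hZ0] at b1 b2
  have hEZ0 : E ^ 2 ≤ Z0 := by
    rw [hZ0, Nat.le_div_iff_mul_le (by omega)]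
    calc E ^ 2 * E = E ^ 3 := by ring
      _ ≤ Z1 := hEZ1
  have hEE2 : E ≤ E ^ 2 := by
    calc E = E ^ 1 := by ring
      _ ≤ E ^ 2 := Nat.pow_le_pow_right (by omega) (by norm_num)
  obtain ⟨q, hq⟩ : ∃ q, q = Z0 / E := ⟨_, rfl⟩
  have c1 := div_up' Z0 E
  have c2 := div_low' Z0 E (by omega) (by omega)
  have c3 : Z0 < E * (Z0 / E + 1) := Nat.lt_mul_div_succ Z0 (show 0 < E by omega)
  rw [← hq] at c1 c2 c3
  have hEq : E ≤ q := by
    rw [hq, Nat.le_div_iff_mul_le (by omega)]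
    calc E * E = E ^ 2 := by ring
      _ ≤ Z0 := hEZ0
  obtain ⟨K, hK⟩ : ∃ K, K = q + 2 := ⟨_, rfl⟩
  obtain ⟨Y, hY⟩ : ∃ Y, Y = K / 40 := ⟨_, rfl⟩
  have d2 := div_low' K 40 (by norm_num) (by omega)
  have d3 : 40 * Y ≤ K := by
    rw [hY]; exact Nat.mul_div_le K 40
  rw [← hY] at d2
  push_cast at d2
  have hY1 : 1 ≤ Y := by omega
  have hZ01 : Z0 ≤ Z1 := by rw [hZ0]; exact Nat.div_le_self _ _
  have hZ0E : Z0 * E ≤ Z1 := by rw [hZ0]; exact Nat.div_mul_le_self _ _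
  have hV : Z0 ^ 2 ≤ (q + 1) * Z1 := by
    calc Z0 ^ 2 = Z0 * Z0 := by ring
      _ ≤ (E * (q + 1)) * Z0 := Nat.mul_le_mul_right _ c3.le
      _ = (q + 1) * (Z0 * E) := by ring
      _ ≤ (q + 1) * Z1 := Nat.mul_le_mul_left _ hZ0E
  have hNZ : 9 * Z1 * p ^ 2 ≤ N := by
    calc 9 * Z1 * p ^ 2 = N / P9 * P9 := by rw [← hZ1, hP9]; ring
      _ ≤ N := Nat.div_mul_le_self _ _
  have key := core3 h2 hg hw (N := N) (Y := Y) (p := p) (K := K) (Z0 := Z0) (Z1 := Z1)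
    (V := q + 1) hp hp2 hρT hρ hρθ hgp hY1 d3 (by omega) hZ01 hV (by omega) hNZ
  -- bounds for the number of edges
  have hKN : K ≤ N := by
    have : q ≤ Z0 := by rw [hq]; exact Nat.div_le_self _ _
    have h3 : Z1 ≤ N := by rw [hZ1]; exact Nat.div_le_self _ _
    have h4 : q * 2 ≤ Z0 := by
      have : q * E ≤ Z0 := by rw [hq]; exact Nat.div_mul_le_self _ _
      nlinarith
    omega
  have hZ0N : Z0 ≤ N := by
    have h3 : Z1 ≤ N := by rw [hZ1]; exact Nat.div_le_self _ _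
    omega
  obtain ⟨L, hL⟩ : ∃ L : ℝ, L = (1 + Real.log N) ^ 16 := ⟨_, rfl⟩
  have hlogm : ∀ m : ℕ, 1 ≤ m → m ≤ N →
      ∑ n ∈ Finset.range (m + 1), ((EF 16 n).card : ℝ) ≤ 99 * m * L := by
    intro m hm hmN
    have h1 := edges_le m 16 hm
    refine h1.trans ?_
    have hmR : (1 : ℝ) ≤ m := by exact_mod_cast hm
    have hmN' : (m : ℝ) ≤ N := by exact_mod_cast hmN
    have h4 : Real.log m ≤ Real.log N := Real.log_le_log (by linarith only [hmR]) hmN'
    have h3 : 0 ≤ Real.log m := Real.log_nonneg hmR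
    have h5 : (1 + Real.log m) ^ 16 ≤ L := by rw [hL]; gcongr
    calc 3 * (m : ℝ) * (2 * ((16 : ℕ) : ℝ) + 1) * (1 + Real.log m) ^ 16
        = 99 * m * (1 + Real.log m) ^ 16 := by push_cast; ring
      _ ≤ 99 * m * L := by gcongr
  have e1 := hlogm K (by omega) hKN
  have e2 := hlogm Z0 (by omega) hZ0N
  rw [← hL] at hE1
  have hKR : (K : ℝ) ≤ 2 * q := by
    have : K ≤ 2 * q := by omega
    exact_mod_cast this
  have hYR : (1 : ℝ) ≤ Y := by exact_mod_cast hY1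
  have hZ0R : (0 : ℝ) < Z0 := by
    have : 0 < Z0 := by omega
    exact_mod_cast this
  have hZ1R : (0 : ℝ) < Z1 := by
    have : 0 < Z1 := by omega
    exact_mod_cast this
  have hER : (0 : ℝ) < E := by linarith only [hE0R]
  have hL0 : 0 ≤ L := by rw [hL]; exact (Even.pow_nonneg (by decide) _)
  obtain ⟨a, ha⟩ : ∃ a : ℝ, a = ∑ n ∈ SB g w1 w2 N, ((EF 16 n).card : ℝ) := ⟨_, rfl⟩
  rw [← ha] at key
  have f1 : (∑ n ∈ Finset.range (K + 1), ((EF 16 n).card : ℝ)) * (30 / (Z0 : ℝ)) ≤ 1 / 15 := by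
    calc (∑ n ∈ Finset.range (K + 1), ((EF 16 n).card : ℝ)) * (30 / (Z0 : ℝ))
        ≤ 99 * K * L * (30 / (Z0 : ℝ)) := by gcongr
      _ = (2970 * L) * (K / Z0) := by field_simp; ring
      _ ≤ (2970 * L) * (2 / E) := by
          refine mul_le_mul_of_nonneg_left ?_ (by positivity)
          rw [div_le_div_iff₀ hZ0R hER]
          nlinarith only [c1, hKR]
      _ = 5940 * L / E := by ring
      _ ≤ 1 / 15 := by
          rw [div_le_div_iff₀ hER (by norm_num)]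
          linarith only [hE1]
  have f2 : (∑ n ∈ Finset.range (Z0 + 1), ((EF 16 n).card : ℝ)) * (30 / (Z1 : ℝ)) ≤ 1 / 30 := by
    calc (∑ n ∈ Finset.range (Z0 + 1), ((EF 16 n).card : ℝ)) * (30 / (Z1 : ℝ))
        ≤ 99 * Z0 * L * (30 / (Z1 : ℝ)) := by gcongr
      _ = (2970 * L) * (Z0 / Z1) := by field_simp; ring
      _ ≤ (2970 * L) * (1 / E) := by
          refine mul_le_mul_of_nonneg_left ?_ (by positivity)
          rw [div_le_div_iff₀ hZ1R hER]
          linarith only [b1]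
      _ = 2970 * L / E := by ring
      _ ≤ 1 / 30 := by
          rw [div_le_div_iff₀ hER (by norm_num)]
          linarith only [hE1]
  have hA : (Y : ℝ) / 5 ≤ a := by
    have h3 : 1 / 10 ≤ a / (2 * Y : ℝ) := by linarith only [key, f1, f2]
    rw [le_div_iff₀ (by positivity)] at h3
    linarith only [h3]
  have hP9R : (P9 : ℝ) = 9 * (p : ℝ) ^ 2 := by rw [hP9]; push_cast; ring
  have hNR0 : (0 : ℝ) < N := by
    have : 0 < N := by omega
    exact_mod_cast this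
  have hNY : (N : ℝ) ≤ 5760 * (p : ℝ) ^ 2 * E ^ 2 * Y := by
    calc (N : ℝ) ≤ 2 * P9 * Z1 := a2
      _ = 18 * (p : ℝ) ^ 2 * Z1 := by rw [hP9R]; ring
      _ ≤ 18 * (p : ℝ) ^ 2 * (2 * E * Z0) := by gcongr
      _ ≤ 18 * (p : ℝ) ^ 2 * (2 * E * (2 * E * q)) := by gcongr
      _ ≤ 18 * (p : ℝ) ^ 2 * (2 * E * (2 * E * K)) := by
          gcongr
          omega
      _ ≤ 18 * (p : ℝ) ^ 2 * (2 * E * (2 * E * (2 * 40 * Y))) := by gcongr
      _ = 5760 * (p : ℝ) ^ 2 * E ^ 2 * Y := by ring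
  have hAN : (N : ℝ) / (E ^ 3 * (p : ℝ) ^ 2) ≤ a := by
    rw [div_le_iff₀ (by positivity)]
    calc (N : ℝ) ≤ 5760 * (p : ℝ) ^ 2 * E ^ 2 * Y := hNY
      _ ≤ 5760 * (p : ℝ) ^ 2 * E ^ 2 * (5 * a) := by
          gcongr
          linarith only [hA]
      _ = a * (28800 * (E ^ 2 * (p : ℝ) ^ 2)) := by ring
      _ ≤ a * (E * (E ^ 2 * (p : ℝ) ^ 2)) := by
          have ha0 : 0 ≤ a := by
            have : (0 : ℝ) ≤ Y / 5 := by positivity
            linarith only [hA, this]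
          gcongr
          linarith only [hE0R]
      _ = a * (E ^ 3 * (p : ℝ) ^ 2) := by ring
  -- Hölder
  have hCS := edges_holder k N 16 (SB g w1 w2 N) (by
    intro n hn
    simp only [SB, Finset.mem_filter] at hn
    exact hn.1)
  obtain ⟨S, hS⟩ : ∃ S : ℝ, S = ((SB g w1 w2 N).card : ℝ) := ⟨_, rfl⟩
  rw [← ha, ← hS] at hCS
  rw [← hS]
  have hS0 : 0 ≤ S := by rw [hS]; positivity
  have hL32 : (2 * ((16 : ℕ) : ℝ) + 1) ^ (k + 1) *
      (2 ^ (k + 2) * N * (1 + Real.log N) ^ (2 ^ (2 * k + 3))) ≤ N * E := by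
    have h4 : (2 * ((16 : ℕ) : ℝ) + 1) ^ (k + 1) *
        (2 ^ (k + 2) * N * (1 + Real.log N) ^ (2 ^ (2 * k + 3))) =
        (N : ℝ) * (33 ^ (k + 1) * (2 ^ (k + 2) * (1 + Real.log N) ^ (2 ^ (2 * k + 3)))) := by
      generalize (1 + Real.log N) ^ (2 ^ (2 * k + 3)) = X
      have e : (2 * ((16 : ℕ) : ℝ) + 1) = 33 := by norm_num
      rw [e]
      ring
    rw [h4]
    exact mul_le_mul_of_nonneg_left hE2 hNR0.le
  have hp0 : (0 : ℝ) < p := by linarith only [hp1R]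
  have h1 : ((N : ℝ) / (E ^ 3 * (p : ℝ) ^ 2)) ^ (k + 1) ≤ S ^ k * (N * E) := by
    calc ((N : ℝ) / (E ^ 3 * (p : ℝ) ^ 2)) ^ (k + 1) ≤ a ^ (k + 1) := by gcongr
      _ ≤ _ := hCS
      _ ≤ S ^ k * (N * E) := mul_le_mul_of_nonneg_left hL32 (by positivity)
  have hfin : ((N : ℝ) / ((E : ℝ) ^ 7 * (p : ℝ) ^ (2 + 2 / (k : ℝ)))) ^ k ≤ S ^ k := by
    have hk0 : (0 : ℝ) < k := by exact_mod_cast hk
    have e1 : ((p : ℝ) ^ (2 + 2 / (k : ℝ))) ^ k = ((p : ℝ) ^ 2) ^ (k + 1) := by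
      rw [← Real.rpow_natCast ((p : ℝ) ^ (2 + 2 / (k : ℝ))) k, ← Real.rpow_mul hp0.le,
        ← pow_mul, ← Real.rpow_natCast]
      congr 1
      push_cast
      field_simp
    have e2 : ((N : ℝ) / ((E : ℝ) ^ 7 * (p : ℝ) ^ (2 + 2 / (k : ℝ)))) ^ k =
        N ^ k / (((E : ℝ) ^ 7) ^ k * ((p : ℝ) ^ 2) ^ (k + 1)) := by
      rw [div_pow, mul_pow, e1]
    have e3 : ((N : ℝ) / (E ^ 3 * (p : ℝ) ^ 2)) ^ (k + 1) =
        N ^ k / (((E : ℝ) ^ 3) ^ (k + 1) * E * ((p : ℝ) ^ 2) ^ (k + 1)) * (N * E) := by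
      rw [div_pow, mul_pow, pow_succ (N : ℝ) k]
      field_simp
    rw [e3] at h1
    have h5 : (N : ℝ) ^ k / (((E : ℝ) ^ 3) ^ (k + 1) * E * ((p : ℝ) ^ 2) ^ (k + 1)) ≤ S ^ k :=
      le_of_mul_le_mul_right h1 (by positivity)
    rw [e2]
    refine le_trans ?_ h5
    have h6 : ((E : ℝ) ^ 3) ^ (k + 1) * E ≤ ((E : ℝ) ^ 7) ^ k := by
      rw [← pow_mul, ← pow_mul, ← pow_succ]
      exact pow_le_pow_right₀ (by linarith only [hE0R]) (by omega)
    gcongr
  exact le_of_pow_le_pow_left₀ (by omega) hS0 hfin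

theorem SB_mono (g : ℕ → A) (w1 w2 : A) (N : ℕ) : SB g w1 w2 N ⊆ SB g w1 w1 N := by
  intro n hn
  simp only [SB, Finset.mem_filter] at hn ⊢
  exact ⟨hn.1, hn.2.1, hn.2.1⟩

theorem final3 (ε : ℝ) (hε : 0 < ε) : ∃ C N₀ : ℕ, ∀ N : ℕ, N₀ ≤ N →
    ∀ (A : Type u) [AddCommGroup A], (∀ a : A, a + a = 0 → a = 0) → ∀ g : ℕ → A, CA g →
    ∀ p : ℕ, p.Prime → p ≠ 2 → ∀ j : ℕ, 2 ≤ j → p ∣ j ^ 2 - 2 → g p ≠ 0 →
    (Real.log N) ^ C * (p : ℝ) ^ (2 + ε) ≤ N → ∀ w1 w2 : A,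
    (N : ℝ) / ((Real.log N) ^ C * (p : ℝ) ^ (2 + ε)) ≤ (SB g w1 w2 N).card := by
  obtain ⟨k, hk1, hk2⟩ : ∃ k : ℕ, 1 ≤ k ∧ 2 / (k : ℝ) ≤ ε := by
    refine ⟨⌈2 / ε⌉₊, Nat.one_le_ceil_iff.2 (by positivity), ?_⟩
    have h1 : 2 / ε ≤ ⌈2 / ε⌉₊ := Nat.le_ceil _
    have h2 : (0 : ℝ) < ⌈2 / ε⌉₊ := lt_of_lt_of_le (by positivity) h1
    rw [div_le_iff₀ h2]
    rw [div_le_iff₀ hε] at h1
    linarith
  obtain ⟨K, hK⟩ : ∃ K : ℕ, K = 2 ^ (2 * k + 3) := ⟨_, rfl⟩
  have hlog : Filter.Tendsto (fun N : ℕ => Real.log N) Filter.atTop Filter.atTop :=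
    Real.tendsto_log_atTop.comp tendsto_natCast_atTop_atTop
  obtain ⟨N2, hN2⟩ := Filter.eventually_atTop.1
    (hlog.eventually_ge_atTop ((89100 * 2 ^ 16 : ℝ) + 33 ^ (k + 1) * (2 ^ (k + 2) * 2 ^ K)))
  refine ⟨7 * (K + 19), max N2 1, ?_⟩
  intro N hN A _ h2 g hg p hp hp2 j hj hpj hgp hbig w1 w2
  have a2 := hN2 N (by omega)
  have hN1' : 1 ≤ N := by omega
  clear hN
  set L := Real.log N with hL
  have hK20 : (0 : ℝ) ≤ 33 ^ (k + 1) * (2 ^ (k + 2) * 2 ^ K) := by positivity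
  have hL4 : (89100 * 2 ^ 16 : ℝ) ≤ L := by linarith
  have hL5 : (33 : ℝ) ^ (k + 1) * (2 ^ (k + 2) * 2 ^ K) ≤ L := by
    have : (0 : ℝ) ≤ 89100 * 2 ^ 16 := by positivity
    linarith
  have hL6 : (100000 : ℝ) ≤ L := by linarith
  have hL1 : 1 ≤ L := by linarith
  have pl : ∀ a b : ℕ, a ≤ b → L ^ a ≤ L ^ b := fun a b h => pow_le_pow_right₀ hL1 h
  obtain ⟨E, e1, e2⟩ : ∃ E : ℕ, L ^ (K + 18) ≤ E ∧ (E : ℝ) < L ^ (K + 18) + 1 :=
    ⟨⌈L ^ (K + 18)⌉₊, Nat.le_ceil _, Nat.ceil_lt_add_one (by positivity)⟩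
  have e3 : (E : ℝ) ≤ L ^ (K + 19) := by
    have h3 : (1 : ℝ) ≤ L ^ (K + 18) := one_le_pow₀ hL1
    have h4 : L ^ (K + 19) = L * L ^ (K + 18) := by ring
    rw [h4]
    nlinarith only [hL6, e2, h3]
  have hEpos : (1 : ℝ) ≤ E := le_trans (one_le_pow₀ hL1) e1
  have hexp : (E : ℝ) ^ 7 ≤ L ^ (7 * (K + 19)) := by
    rw [mul_comm 7 (K + 19), pow_mul]
    exact pow_le_pow_left₀ (by linarith) e3 7
  have hp1R : (1 : ℝ) ≤ p := by exact_mod_cast hp.one_le
  have hN0 : (0 : ℝ) < N := by exact_mod_cast hN1'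
  have hL0 : 0 < L := by linarith
  have hp0 : (0 : ℝ) < p := by linarith
  have hle : (N : ℝ) / (L ^ (7 * (K + 19)) * (p : ℝ) ^ (2 + ε)) ≤
      N / ((E : ℝ) ^ 7 * (p : ℝ) ^ (2 + 2 / (k : ℝ))) := by
    gcongr
  have hE0 : 100000 ≤ E := by
    have : (100000 : ℝ) ≤ E := by
      refine le_trans ?_ e1
      calc (100000 : ℝ) ≤ L := hL6
        _ = L ^ 1 := by ring
        _ ≤ L ^ (K + 18) := pl _ _ (by omega)
    exact_mod_cast this
  have hE1 : 89100 * (1 + L) ^ 16 ≤ E := by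
    refine le_trans ?_ e1
    calc 89100 * (1 + L) ^ 16 ≤ 89100 * (2 * L) ^ 16 := by gcongr; linarith
      _ = (89100 * 2 ^ 16) * L ^ 16 := by ring
      _ ≤ L * L ^ 16 := by gcongr
      _ = L ^ 17 := by ring
      _ ≤ L ^ (K + 18) := pl _ _ (by omega)
  have hE2 : 33 ^ (k + 1) * (2 ^ (k + 2) * (1 + L) ^ (2 ^ (2 * k + 3))) ≤ E := by
    rw [← hK]
    refine le_trans ?_ e1
    calc 33 ^ (k + 1) * (2 ^ (k + 2) * (1 + L) ^ K)
        ≤ 33 ^ (k + 1) * (2 ^ (k + 2) * (2 * L) ^ K) := by gcongr; linarith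
      _ = (33 ^ (k + 1) * (2 ^ (k + 2) * 2 ^ K)) * L ^ K := by rw [mul_pow]; ring
      _ ≤ L * L ^ K := by gcongr
      _ = L ^ (K + 1) := by ring
      _ ≤ L ^ (K + 18) := pl _ _ (by omega)
  have hbig' : E ^ 4 * p ^ 2 ≤ N := by
    have h3 : (E : ℝ) ^ 4 * (p : ℝ) ^ 2 ≤ N := by
      refine le_trans ?_ hbig
      have h4 : (E : ℝ) ^ 4 ≤ L ^ (7 * (K + 19)) :=
        (pow_le_pow_right₀ hEpos (by norm_num : 4 ≤ 7)).trans hexp
      have h5 : (p : ℝ) ^ 2 ≤ (p : ℝ) ^ (2 + ε) := by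
        rw [← Real.rpow_natCast]
        apply Real.rpow_le_rpow_of_exponent_le hp1R
        push_cast
        linarith
      gcongr
    exact_mod_cast h3
  refine hle.trans ?_
  by_cases hw : w1 = w2
  · subst hw
    have hne : w1 ≠ w1 + g p := fun h => hgp (by simpa using h)
    have h3 := fin3 h2 hg hne hp hp2 hj hpj hgp hk1 hE0 hE1 hE2 hbig'
    refine h3.trans ?_
    exact_mod_cast Finset.card_le_card (SB_mono g w1 (w1 + g p) N)
  · exact fin3 h2 hg hw hp hp2 hj hpj hgp hk1 hE0 hE1 hE2 hbig'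

end Pool.Agent.Lib.MP_0b748d_nt.M3
end

section

set_option autoImplicit false

/-!
# General abelian groups
-/

namespace Pool.Agent.Lib.MP_0b748d_nt.M3

open Pool.Agent.Lib.MP_0b748d_nt

universe u

variable {A : Type u} [AddCommGroup A]

/-- the 2-primary torsion subgroup -/
def Tor (A : Type u) [AddCommGroup A] : AddSubgroup A where
  carrier := {a | ∃ k : ℕ, 2 ^ k • a = 0}
  zero_mem' := ⟨0, by simp⟩
  add_mem' := by
    rintro a b ⟨k, hk⟩ ⟨l, hl⟩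
    refine ⟨k + l, ?_⟩
    rw [smul_add, pow_add, mul_smul, mul_comm (2 ^ k) (2 ^ l), mul_smul, smul_comm (2 ^ k) (2 ^ l) a,
      hk, smul_comm (2 ^ l) (2 ^ k) b, hl]
    simp
  neg_mem' := by
    rintro a ⟨k, hk⟩
    exact ⟨k, by rw [smul_neg, hk, neg_zero]⟩

theorem tor_quot (x : A ⧸ Tor A) (hx : x + x = 0) : x = 0 := by
  obtain ⟨a, rfl⟩ := QuotientAddGroup.mk_surjective x
  rw [← QuotientAddGroup.mk_add, QuotientAddGroup.eq_zero_iff] at hx
  rw [QuotientAddGroup.eq_zero_iff]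
  obtain ⟨k, hk⟩ := hx
  refine ⟨k + 1, ?_⟩
  rw [pow_succ, mul_smul, two_smul]
  exact hk

theorem exists_j (p : ℕ) (hp : p.Prime) (h : p % 8 = 1 ∨ p % 8 = 7) :
    ∃ j : ℕ, 2 ≤ j ∧ p ∣ j ^ 2 - 2 := by
  haveI : Fact p.Prime := ⟨hp⟩
  have hp2 : p ≠ 2 := by
    rintro rfl
    omega
  obtain ⟨r, hr⟩ := (ZMod.exists_sq_eq_two_iff (p := p) hp2).mpr h
  have h2 := hp.two_le
  refine ⟨r.val + p, by omega, ?_⟩
  have h3 : 2 ≤ (r.val + p) ^ 2 := by
    have h4 : 2 ≤ r.val + p := by omega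
    nlinarith
  rw [← ZMod.natCast_eq_zero_iff, Nat.cast_sub h3]
  push_cast
  rw [ZMod.natCast_zmod_val, ZMod.natCast_self, add_zero, hr]
  ring

theorem gen3 (ε : ℝ) (hε : 0 < ε) : ∃ C N₀ : ℕ, ∀ N : ℕ, N₀ ≤ N →
    ∀ (A : Type u) [AddCommGroup A] (g : ℕ → A),
    (∀ m n : ℕ, 0 < m → 0 < n → g (m * n) = g m + g n) →
    ∀ p : ℕ, p.Prime → (p % 8 = 1 ∨ p % 8 = 7) → (∀ k : ℕ, 2 ^ k • g p ≠ 0) →
    (Real.log N) ^ C * (p : ℝ) ^ (2 + ε) ≤ N → ∀ w₁ w₂ : A,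
    (N : ℝ) / ((Real.log N) ^ C * (p : ℝ) ^ (2 + ε)) ≤
      ({n : ℕ | 2 ≤ n ∧ n ≤ N ∧ g (n ^ 2 - 2) ≠ w₁ ∧ g (n ^ 2 - 2) ≠ w₂}.ncard : ℝ) := by
  obtain ⟨C, N₀, h⟩ := final3.{u} ε hε
  refine ⟨C, N₀, ?_⟩
  intro N hN A _ g hg p hp hp8 hgp hbig w₁ w₂
  obtain ⟨j, hj, hpj⟩ := exists_j p hp hp8
  have hp2 : p ≠ 2 := by
    rintro rfl
    omega
  let π : A →+ A ⧸ Tor A := QuotientAddGroup.mk' (Tor A)
  have h1 := h N hN (A ⧸ Tor A) tor_quot (fun n => π (g n))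
    (fun m n hm hn => by simp only [hg m n hm hn, map_add]) p hp hp2 j hj hpj (by
      intro h0
      have h0' : ((g p : A) : A ⧸ Tor A) = 0 := h0
      rw [QuotientAddGroup.eq_zero_iff] at h0'
      obtain ⟨k, hk⟩ := h0'
      exact hgp k hk) hbig (π w₁) (π w₂)
  refine h1.trans ?_
  have h2 : ((SB (fun n => π (g n)) (π w₁) (π w₂) N : Finset ℕ) : Set ℕ) ⊆
      {n : ℕ | 2 ≤ n ∧ n ≤ N ∧ g (n ^ 2 - 2) ≠ w₁ ∧ g (n ^ 2 - 2) ≠ w₂} := by
    intro n hn
    rw [Finset.mem_coe] at hn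
    simp only [SB, Finset.mem_filter, Finset.mem_Icc] at hn
    exact ⟨hn.1.1, hn.1.2, fun h => hn.2.1 (by rw [h]), fun h => hn.2.2 (by rw [h])⟩
  have hfin : {n : ℕ | 2 ≤ n ∧ n ≤ N ∧ g (n ^ 2 - 2) ≠ w₁ ∧ g (n ^ 2 - 2) ≠ w₂}.Finite :=
    (Set.finite_Iic N).subset (fun n hn => hn.2.1)
  have h3 := Set.ncard_le_ncard h2 hfin
  rw [Set.ncard_coe_finset] at h3
  exact_mod_cast h3

end Pool.Agent.Lib.MP_0b748d_nt.M3
end
end
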